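import Pool.Agent.H993.MD.F

/-!
# Project MD: the second order of the energy at all densities
-/

namespace Pool.Agent.H993.MD

open MeasureTheory
open Pool.Agent.N657.QR Pool.Agent.N657.QL Pool.Agent.H993.DM
open Pool.Agent.H993.TR (oc oc_nonneg oc_le oc_zero)
open Pool.Agent.N157 (QR_FOU.cc QR_FOU.ss QR_FOU.BB)
open Pool.Agent.N498.QL_SYM (nnw_nonneg nnw_trans)

/-- The energies of all sectors are close to the classical energy plus the energy of the neutral
ground state. -/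
theorem en_all {V : Type} [Fintype V] [DecidableEq V] [Nonempty V] {U : ℝ} (hU : 0 < U)
    {w : V → V → ℝ} (hw : ∀ x y, 0 ≤ w x y) (ν : V → ℝ) (N : ℤ) :
    en (U • (1 : Matrix V V ℝ)) w 0 0 + U * (((N : ℝ) - ∑ x, ν x) ^ 2 / (Fintype.card V : ℝ)) ≤
      en (U • (1 : Matrix V V ℝ)) w ν N ∧
    en (U • (1 : Matrix V V ℝ)) w ν N ≤ en (U • (1 : Matrix V V ℝ)) w 0 0 +
      U * (((N : ℝ) - ∑ x, ν x) ^ 2 / (Fintype.card V : ℝ)) + U * (Fintype.card V : ℝ) := by
  have hV : (0 : ℝ) < Fintype.card V := by exact_mod_cast Fintype.card_pos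
  obtain ⟨c, hcd⟩ : ∃ c : ℝ, c = ((N : ℝ) - ∑ x, ν x) / Fintype.card V := ⟨_, rfl⟩
  have hc : ∑ x, (ν x + c) = (N : ℝ) := by
    rw [Finset.sum_add_distrib, hcd]
    simp only [Finset.sum_const, Finset.card_univ, nsmul_eq_mul]
    field_simp
    ring
  have hcV : (Fintype.card V : ℝ) * c ^ 2 =
      ((N : ℝ) - ∑ x, ν x) ^ 2 / (Fintype.card V : ℝ) := by
    rw [hcd]
    field_simp
  obtain ⟨m, hm, hm1⟩ := Pool.Agent.N839.QLD.round (fun x => ν x + c) N hc
  have hup := Pool.Agent.N839.QLD.up bas U hU w hw ν N m hm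
  have hD : ∑ x, ((m x : ℝ) - ν x) ^ 2 ≤ (Fintype.card V : ℝ) + (Fintype.card V : ℝ) * c ^ 2 := by
    have hmR : ∑ x, (m x : ℝ) = (N : ℝ) := by
      rw [← hm]
      push_cast
      rfl
    have e3 : ∑ x, ((m x : ℝ) - ν x) ^ 2 = ∑ x, (((m x : ℝ) - (ν x + c)) ^ 2 +
        (2 * c * ((m x : ℝ) - (ν x + c)) + c ^ 2)) := by
      refine Finset.sum_congr rfl fun x _ => ?_
      ring
    rw [e3, Finset.sum_add_distrib, Finset.sum_add_distrib, ← Finset.mul_sum,
      Finset.sum_sub_distrib, hc, hmR]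
    have : ∑ x, ((m x : ℝ) - (ν x + c)) ^ 2 ≤ ∑ _x : V, (1 : ℝ) :=
      Finset.sum_le_sum fun x _ => hm1 x
    simp only [Finset.sum_const, Finset.card_univ, nsmul_eq_mul] at this ⊢
    linarith
  have hlow : en (U • (1 : Matrix V V ℝ)) w 0 0 + U * ((Fintype.card V : ℝ) * c ^ 2) ≤
      en (U • (1 : Matrix V V ℝ)) w ν N := by
    refine le_of_forall_pos_le_add fun ε hε => ?_
    obtain ⟨ψ, hf, hs, hn, hlt⟩ := bas.enex (U • (1 : Matrix V V ℝ)) w ν N ε
      (Pool.Agent.N839.QLD.psd U hU) hw hε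
    have h1 := min_ (U • (1 : Matrix V V ℝ)) w (fun x => ν x + c) N
      (Pool.Agent.N839.QLD.psd U hU) hw
    have h2 := bas.enle (U • (1 : Matrix V V ℝ)) w (fun x => ν x + c) N ψ
      (Pool.Agent.N839.QLD.psd U hU) hw hf hs
    rw [hn, mul_one] at h2
    have h3 := Pool.Agent.N839.QLD.shift U w ν N c hc ψ hf hs hn
    linarith
  rw [hcV] at hlow hD
  have h5 := mul_le_mul_of_nonneg_left hD hU.le
  constructor
  · exact hlow
  · linarith

section

variable {d L : ℕ} [NeZero L]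

/-- The sum of the square roots. -/
theorem sum_sqrt (hd : 1 ≤ d) (hL : 2 ≤ L) {U : ℝ} (hU : 0 < U) :
    Real.sqrt (U / 2) * (Fintype.card (Fin d → ZMod L) : ℝ) ≤
      ∑ k ∈ (Finset.univ : Finset (Fin d → ZMod L)).erase 0, Real.sqrt (U * lam k / 2) := by
  have hd1 : (1 : ℝ) ≤ d := by exact_mod_cast hd
  have hd0 : (0 : ℝ) < d := by linarith
  have hne : ∀ i : Fin d, (ee i : Fin d → ZMod L) ≠ 0 := by
    intro i h
    have h1 := congrFun h i
    have h2 : (ee i : Fin d → ZMod L) i = 1 := by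
      unfold ee
      simp
    rw [h2] at h1
    have : Fact (1 < L) := ⟨by omega⟩
    exact one_ne_zero h1
  have h1 : ∑ k ∈ (Finset.univ : Finset (Fin d → ZMod L)).erase 0, lam k / 2 =
      d * (Fintype.card (Fin d → ZMod L) : ℝ) := by
    have h2 : ∀ k : Fin d → ZMod L, lam k / 2 = ∑ i : Fin d, oc k (ee i) := fun k =>
      (oc_ee k).symm
    simp only [h2]
    rw [Finset.sum_comm, Finset.sum_congr rfl fun i _ => Pool.Agent.H993.LY.oc_sum (ee i) (hne i)]
    simp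
  have h3 : ∀ k ∈ (Finset.univ : Finset (Fin d → ZMod L)).erase 0,
      Real.sqrt (U / 2) / d * (lam k / 2) ≤ Real.sqrt (U * lam k / 2) := by
    intro k hk
    have hl := lam_pos' (Finset.ne_of_mem_erase hk)
    have h4 := Pool.Agent.H993.LY.lam_le k
    have e1 : U * lam k / 2 = U / 2 * lam k := by ring
    rw [e1, Real.sqrt_mul (by positivity)]
    have e2 : Real.sqrt (U / 2) / d * (lam k / 2) = Real.sqrt (U / 2) * (lam k / (2 * d)) := by
      field_simp
    rw [e2]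
    refine mul_le_mul_of_nonneg_left ?_ (Real.sqrt_nonneg _)
    apply Real.le_sqrt_of_sq_le
    rw [div_pow, div_le_iff₀ (by positivity)]
    have h5 : lam k * (4 * d) ≤ lam k * (2 * d) ^ 2 := by
      refine mul_le_mul_of_nonneg_left ?_ hl.le
      nlinarith
    nlinarith
  have h6 := Finset.sum_le_sum h3
  rw [← Finset.mul_sum, h1] at h6
  refine le_trans (le_of_eq ?_) h6
  field_simp

end

theorem sqrt_quarter (X : ℝ) : Real.sqrt X / 2 = Real.sqrt (X / 4) := by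
  rw [Real.sqrt_div' X (by norm_num : (0:ℝ) ≤ 4), show (4:ℝ) = 2 ^ 2 by norm_num,
    Real.sqrt_sq (by norm_num)]

/-- The energy up to the second order, at all densities. -/
theorem energy_law (d : ℕ) (hd : 2 ≤ d) (ε : ℝ) (hε : 0 < ε) : ∃ U₀ : ℝ, 0 < U₀ ∧
    ∀ U : ℝ, 0 < U → U ≤ U₀ → ∃ L₀ : ℕ, ∀ (L : ℕ) [NeZero L], L₀ ≤ L → Even L →
    ∀ (ν : (Fin d → ZMod L) → ℝ) (N : ℤ),
      |en (U • (1 : Matrix (Fin d → ZMod L) (Fin d → ZMod L) ℝ)) (nnw 1) ν N -
        (U * (((N : ℝ) - ∑ x, ν x) ^ 2 / (Fintype.card (Fin d → ZMod L) : ℝ)) -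
          d * (Fintype.card (Fin d → ZMod L) : ℝ) +
          ∑ k ∈ (Finset.univ : Finset (Fin d → ZMod L)).erase 0, Real.sqrt (U * lam k / 2))| ≤
        ε * ∑ k ∈ (Finset.univ : Finset (Fin d → ZMod L)).erase 0, Real.sqrt (U * lam k / 2) := by
  obtain ⟨U₁, hU₁, h⟩ := real_mom d hd (ε / 2) (by positivity)
  refine ⟨min U₁ (ε ^ 2 / 8), lt_min hU₁ (by positivity), ?_⟩
  intro U hU hUle
  obtain ⟨L₁, hL₁⟩ := h U hU (hUle.trans (min_le_left _ _))
  refine ⟨max L₁ 2, ?_⟩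
  intro L _ hLL hev ν N
  have hnn : ∀ x y : Fin d → ZMod L, 0 ≤ nnw 1 x y := fun x y => nnw_nonneg x y
  have hPD := pd_one (d := d) (L := L) hU
  obtain ⟨Ψ, hΨ⟩ := ex (U • (1 : Matrix (Fin d → ZMod L) (Fin d → ZMod L) ℝ)) (nnw 1) 0 0 hPD hnn
  have hm := hL₁ L ((le_max_left _ _).trans hLL) hev Ψ hΨ
  have he := en_modes hΨ
  obtain ⟨a1', a2'⟩ := en_all hU hnn ν N
  have hsum := sum_sqrt (d := d) (L := L) (by omega) ((le_max_right _ _).trans hLL) hU
  obtain ⟨V, hV⟩ : ∃ V : ℝ, V = (Fintype.card (Fin d → ZMod L) : ℝ) := ⟨_, rfl⟩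
  have hV0 : 0 < V := by rw [hV]; exact card_pos'
  rw [← hV] at he a1' a2' hsum ⊢
  simp only [← hV] at hm
  obtain ⟨E0, hE0⟩ : ∃ E0, E0 = en (U • (1 : Matrix (Fin d → ZMod L) (Fin d → ZMod L) ℝ))
    (nnw 1) 0 0 := ⟨_, rfl⟩
  obtain ⟨S, hS⟩ : ∃ S, S = ∑ k ∈ (Finset.univ : Finset (Fin d → ZMod L)).erase 0,
    Real.sqrt (U * lam k / 2) := ⟨_, rfl⟩
  rw [← hE0] at he a1' a2'
  rw [← hS] at hsum ⊢
  -- the neutral energy
  have hneu : |E0 + d * V - S| ≤ ε / 2 * S := by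
    rw [he, hS, ← Finset.sum_sub_distrib, Finset.mul_sum]
    refine (Finset.abs_sum_le_sum_abs _ _).trans (Finset.sum_le_sum fun k hk => ?_)
    have hk0 := Finset.ne_of_mem_erase hk
    have hl := lam_pos' hk0
    obtain ⟨m1, m2⟩ := hm k hk0
    have e1 : U * Real.sqrt (lam k / (8 * U)) = Real.sqrt (U * lam k / 2) / 2 := by
      have h1 : U * Real.sqrt (lam k / (8 * U)) = Real.sqrt (U ^ 2 * (lam k / (8 * U))) := by
        rw [Real.sqrt_mul (by positivity), Real.sqrt_sq hU.le]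
      rw [h1, sqrt_quarter]
      congr 1
      field_simp
      norm_num
    have e2 : lam k / 2 * Real.sqrt (U / (2 * lam k)) = Real.sqrt (U * lam k / 2) / 2 := by
      have h1 : lam k / 2 * Real.sqrt (U / (2 * lam k)) =
          Real.sqrt ((lam k / 2) ^ 2 * (U / (2 * lam k))) := by
        rw [Real.sqrt_mul (by positivity), Real.sqrt_sq (by positivity)]
      rw [h1, sqrt_quarter]
      congr 1
      field_simp
      norm_num
    have g1 : |U * ((Sg Ψ (QR_FOU.cc k) + Sg Ψ (QR_FOU.ss k)) / V) -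
        Real.sqrt (U * lam k / 2) / 2| ≤ ε / 2 * (Real.sqrt (U * lam k / 2) / 2) := by
      rw [← e1, ← mul_sub, abs_mul, abs_of_pos hU]
      have := mul_le_mul_of_nonneg_left m2 hU.le
      refine this.trans (le_of_eq ?_)
      ring
    have g2 : |lam k / 2 * (nk Ψ k / V) - Real.sqrt (U * lam k / 2) / 2| ≤
        ε / 2 * (Real.sqrt (U * lam k / 2) / 2) := by
      have hl2 : 0 < lam k / 2 := by positivity
      rw [← e2, ← mul_sub, abs_mul, abs_of_pos hl2]
      have := mul_le_mul_of_nonneg_left m1 hl2.le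
      refine this.trans (le_of_eq ?_)
      ring
    have e3 : U * ((Sg Ψ (QR_FOU.cc k) + Sg Ψ (QR_FOU.ss k)) / V) +
        lam k / 2 * (nk Ψ k / V) - Real.sqrt (U * lam k / 2) =
        (U * ((Sg Ψ (QR_FOU.cc k) + Sg Ψ (QR_FOU.ss k)) / V) - Real.sqrt (U * lam k / 2) / 2) +
        (lam k / 2 * (nk Ψ k / V) - Real.sqrt (U * lam k / 2) / 2) := by ring
    rw [e3]
    refine (abs_add_le _ _).trans ?_
    linarith
  -- the error of the classical energy
  have hUV : U * V ≤ ε / 2 * S := by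
    have h1 : Real.sqrt (U / 2) * Real.sqrt (U / 2) = U / 2 := Real.mul_self_sqrt (by positivity)
    have h2 : Real.sqrt (U / 2) ≤ ε / 4 := by
      apply Real.sqrt_le_iff.2
      refine ⟨by positivity, ?_⟩
      have := hUle.trans (min_le_right _ _)
      nlinarith
    have h3 : U ≤ ε / 2 * Real.sqrt (U / 2) := by
      have := mul_le_mul_of_nonneg_right h2 (Real.sqrt_nonneg (U / 2))
      linarith
    calc U * V ≤ (ε / 2 * Real.sqrt (U / 2)) * V := mul_le_mul_of_nonneg_right h3 hV0.le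
      _ = ε / 2 * (Real.sqrt (U / 2) * V) := by ring
      _ ≤ ε / 2 * S := mul_le_mul_of_nonneg_left hsum (by positivity)
  rw [abs_le] at hneu ⊢
  constructor
  · linarith [hneu.1]
  · linarith [hneu.2]

end Pool.Agent.H993.MD
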