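import Pool.Graph.R_pool_sql_team_seeded_63374d34.N657.QL.All

/-!
# Project MD: the bounds of the library for a mode, without the condition on the third moments

The proofs are those of the library modules `N691.QL_TRANS`, `N482.QL_LONG`, `N8.QL_SQ`, where the
condition `Cub f` is assumed, but not used.
-/

set_option autoImplicit false

namespace Pool.Agent.H993.MD

open MeasureTheory Filter Topology
open Pool.Agent.N657.QR Pool.Agent.N657.QL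

section

open Pool.Agent.N691.QLT

theorem trans' (hT : S_TPB) (hR : S_ROTA) (hQ : S_RATIO) :
  ∀ (M : ℕ) (δ : ℝ), 0 < δ → ∃ C : ℝ, 0 ≤ C ∧
    ∀ (d L : ℕ) [NeZero L] (U l : ℝ) (μ : Measure ((Fin d → ZMod L) → ℝ))
      (f : (Fin d → ZMod L) → ℝ), 0 < U → 0 < l → Env U μ → (∀ x, lap f x = l * f x) →
      ∫ θ, cM M (r2 θ) * Tf f θ ^ 2 ∂μ ≤
        (1 + δ) * AM M 1 * (∑ x, f x ^ 2) * Real.sqrt U / (Real.sqrt 2 * Real.sqrt l) +
        C * (∑ x, f x ^ 2) * U / ((Fintype.card (Fin d → ZMod L) : ℝ) * l) := by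
  intro M δ hδ
  obtain ⟨e, he, he4, heδ⟩ : ∃ e : ℝ, 0 < e ∧ e ≤ 1 / 4 ∧ 4 * e ≤ δ :=
    ⟨min δ 1 / 4, by positivity, by linarith [min_le_right δ 1], by linarith [min_le_left δ 1]⟩
  have hC'0 : (0 : ℝ) ≤ (1 + e) * (1 + 1 / e) * 4 ^ M + (1 + 1 / e) * ((M : ℝ) ^ 2 * 4 ^ M) := by
    positivity
  refine ⟨((1 + e) * (1 + 1 / e) * 4 ^ M + (1 + 1 / e) * ((M : ℝ) ^ 2 * 4 ^ M)) +
    (M : ℝ) ^ 2 * (4 ^ M) ^ 2 / e, by positivity, ?_⟩
  intro d L _ U l μ f hU hl hE hf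
  have := hE.prob
  have hAM : 0 ≤ AM M 1 := by unfold AM; positivity
  have hσ0 : 0 ≤ ∑ x, f x ^ 2 := by positivity
  have hnn : 0 ≤ (1 + δ) * AM M 1 * (∑ x, f x ^ 2) * Real.sqrt U / (Real.sqrt 2 * Real.sqrt l) +
        (((1 + e) * (1 + 1 / e) * 4 ^ M + (1 + 1 / e) * ((M : ℝ) ^ 2 * 4 ^ M)) +
    (M : ℝ) ^ 2 * (4 ^ M) ^ 2 / e) * (∑ x, f x ^ 2) * U /
          ((Fintype.card (Fin d → ZMod L) : ℝ) * l) := by positivity
  rcases Nat.eq_zero_or_pos M with hM | hM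
  · subst hM
    have h0 : ∀ θ, cM 0 (r2 θ) * Tf f θ ^ 2 = 0 := fun θ => by simp [cM]
    simp only [h0]
    simpa using hnn
  rcases hσ0.eq_or_lt with hσ | hσ
  · have hf0 : ∀ x, f x = 0 := by
      intro x
      have := (Finset.sum_eq_zero_iff_of_nonneg (fun x _ => sq_nonneg (f x))).1 hσ.symm x
        (Finset.mem_univ x)
      exact pow_eq_zero_iff (two_ne_zero) |>.1 this
    have h0 : ∀ θ, cM M (r2 θ) * Tf f θ ^ 2 = 0 := fun θ => by simp [Tf, Xf, Yf, hf0]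
    simp only [h0]
    simpa using hnn
  obtain ⟨-, hq, -⟩ := hQ.2 M hM
  obtain ⟨hX, hY, hmx, hmy, hr2, hNf, hLf, hTf⟩ := hT.mem f
  have hP : ((1 + my) ^ M : ((Fin d → ZMod L) → ℝ) → ℝ) ∈ TP (Fin d → ZMod L) :=
    pow_mem (add_mem (one_mem _) hmy) M
  have hPT : ((1 + my) ^ M * Tf f : ((Fin d → ZMod L) → ℝ) → ℝ) ∈ TP (Fin d → ZMod L) :=
    mul_mem hP hTf
  have hn : (0 : ℝ) < (Fintype.card (Fin d → ZMod L) : ℝ) := by exact_mod_cast Fintype.card_pos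
  have hA1 : 1 ≤ AM M 1 := (hq 1 zero_le_one le_rfl).1
  have hAr : ∀ θ : (Fin d → ZMod L) → ℝ, AM M (r2 θ) ≤ AM M 1 := fun θ =>
    (hq _ (hT.bounds f θ).1 (hT.bounds f θ).2.1).2.1
  obtain ⟨-, hR2, -, hR4⟩ := hR d L U μ hE M f
  -- the first integrals
  have hPP : ∀ θ : (Fin d → ZMod L) → ℝ, ((1 + my) ^ M : ((Fin d → ZMod L) → ℝ) → ℝ) θ ^ 2 =
      (1 + my θ) ^ (2 * M) := by
    intro θ
    rw [Pi.pow_apply, ← pow_mul, mul_comm M 2]
    rfl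
  have hAMT : (fun θ : (Fin d → ZMod L) → ℝ => AM M (r2 θ)) ∈ TP (Fin d → ZMod L) := by
    have : (fun θ : (Fin d → ZMod L) → ℝ => AM M (r2 θ)) =
        ∑ j ∈ Finset.range (M + 1),
          (((2 * M).choose (2 * j) : ℝ) * ((2 * j).choose j : ℝ) / 4 ^ j) • r2 ^ j := by
      funext θ
      simp [AM, Finset.sum_apply]
    rw [this]
    exact sum_mem fun j _ => Subalgebra.smul_mem _ (pow_mem hr2 j) _
  have iAM := intg hT hE _ hAMT
  have iN := intg hT hE _ hNf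
  have hPM : (fun θ : (Fin d → ZMod L) → ℝ => (1 + my θ) ^ (2 * M)) ∈ TP (Fin d → ZMod L) :=
    pow_mem (add_mem (one_mem _) hmy) (2 * M)
  have iPM := intg hT hE _ hPM
  have hPA : ∫ θ, (1 + my θ) ^ (2 * M) ∂μ ≤ AM M 1 := by
    rw [hR2]
    calc ∫ θ, AM M (r2 θ) ∂μ ≤ ∫ _θ, AM M 1 ∂μ :=
          integral_mono iAM (integrable_const _) hAr
      _ = AM M 1 := by simp
  have hIP : ∫ θ, ((1 + my) ^ M : ((Fin d → ZMod L) → ℝ) → ℝ) θ ^ 2 ∂μ ≤ AM M 1 := by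
    simp only [hPP]; exact hPA
  have hP4 : ∀ θ : (Fin d → ZMod L) → ℝ, (1 + my θ) ^ (2 * M) ≤ 4 ^ M := by
    intro θ
    obtain ⟨hb0, hb1⟩ := my_bd hT θ
    rw [pow_mul]
    apply pow_le_pow_left₀ (sq_nonneg _)
    nlinarith
  have hIQ : ∫ θ, ((1 + my) ^ M * Tf f : ((Fin d → ZMod L) → ℝ) → ℝ) θ ^ 2 ∂μ ≤
      4 ^ M * ∫ θ, Nf f θ ∂μ := by
    rw [← integral_const_mul]
    refine integral_mono (intg hT hE _ (pow_mem hPT 2)) (iN.const_mul _) fun θ => ?_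
    show (((1 + my) ^ M : ((Fin d → ZMod L) → ℝ) → ℝ) θ * Tf f θ) ^ 2 ≤ 4 ^ M * Nf f θ
    rw [mul_pow, hPP]
    exact mul_le_mul (hP4 θ) (T_le hT f θ) (sq_nonneg _) (by positivity)
  have hGP : ∫ θ, gr ((1 + my) ^ M) θ ∂μ ≤
      (M : ℝ) ^ 2 * 4 ^ M / (Fintype.card (Fin d → ZMod L) : ℝ) := by
    calc ∫ θ, gr ((1 + my) ^ M) θ ∂μ ≤
        ∫ _θ, (M : ℝ) ^ 2 * 4 ^ M / (Fintype.card (Fin d → ZMod L) : ℝ) ∂μ :=
          integral_mono (intg hT hE _ (hT.grmem _ hP)) (integrable_const _) (grP_le hT M)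
      _ = (M : ℝ) ^ 2 * 4 ^ M / (Fintype.card (Fin d → ZMod L) : ℝ) := by simp
  have hGQ : ∫ θ, gr ((1 + my) ^ M * Tf f) θ ∂μ ≤ (1 + e) ^ 2 * (∑ x, f x ^ 2) * AM M 1 +
      ((1 + e) * (1 + 1 / e) * 4 ^ M + (1 + 1 / e) * ((M : ℝ) ^ 2 * 4 ^ M)) *
        ((∫ θ, Nf f θ ∂μ) / (Fintype.card (Fin d → ZMod L) : ℝ)) := by
    have h1 := integral_mono (intg hT hE _ (hT.grmem _ hPT))
      ((iPM.const_mul ((1 + e) ^ 2 * (∑ x, f x ^ 2))).add
        ((iN.div_const (Fintype.card (Fin d → ZMod L) : ℝ)).const_mul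
          ((1 + e) * (1 + 1 / e) * 4 ^ M + (1 + 1 / e) * ((M : ℝ) ^ 2 * 4 ^ M))))
      (fun θ => grQ_le hT M f e he θ)
    refine le_trans h1 ?_
    rw [integral_add' (iPM.const_mul _) ((iN.div_const _).const_mul _), integral_const_mul,
      integral_const_mul, integral_div]
    gcongr
  have hI := hE.irb l f hl hf
  have hsU : 0 < Real.sqrt U := Real.sqrt_pos.2 hU
  have hsl : 0 < Real.sqrt l := Real.sqrt_pos.2 hl
  have hs2 : 0 < Real.sqrt 2 := Real.sqrt_pos.2 (by norm_num)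
  have hU2 : Real.sqrt U ^ 2 = U := Real.sq_sqrt hU.le
  have hl2 : Real.sqrt l ^ 2 = l := Real.sq_sqrt hl.le
  have h22 : Real.sqrt 2 ^ 2 = 2 := Real.sq_sqrt (by norm_num)
  have ht0 : 0 ≤ 2 * e * Real.sqrt U / (Real.sqrt l * (∑ x, f x ^ 2) * 4 ^ M) := by positivity
  have hk := key hT hE (Real.sqrt (2 * e * Real.sqrt U / (Real.sqrt l * (∑ x, f x ^ 2) * 4 ^ M))) l
    (-(Real.sqrt (2 * e * Real.sqrt U / (Real.sqrt l * (∑ x, f x ^ 2) * 4 ^ M)) *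
      (Real.sqrt l / (Real.sqrt 2 * Real.sqrt U)))) f hf _ _ hP hPT
  have hW : ∫ θ, Xf f θ * (((1 + my) ^ M : ((Fin d → ZMod L) → ℝ) → ℝ) θ *
      ((1 + my) ^ M * Tf f : ((Fin d → ZMod L) → ℝ) → ℝ) θ) ∂μ =
      -∫ θ, cM M (r2 θ) * Tf f θ ^ 2 ∂μ := by
    rw [← hR4]
    refine integral_congr_ae (Filter.Eventually.of_forall fun θ => ?_)
    show Xf f θ * (((1 + my) ^ M : ((Fin d → ZMod L) → ℝ) → ℝ) θ *
      (((1 + my) ^ M : ((Fin d → ZMod L) → ℝ) → ℝ) θ * Tf f θ)) =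
      Xf f θ * Tf f θ * (1 + my θ) ^ (2 * M)
    rw [← hPP]
    ring
  rw [hW] at hk
  have hts : Real.sqrt (2 * e * Real.sqrt U / (Real.sqrt l * (∑ x, f x ^ 2) * 4 ^ M)) ^ 2 =
      2 * e * Real.sqrt U / (Real.sqrt l * (∑ x, f x ^ 2) * 4 ^ M) := Real.sq_sqrt ht0
  have hfin := fin_alg (AM M 1) (∑ x, f x ^ 2) (Real.sqrt U) (Real.sqrt l) (Real.sqrt 2)
    (Fintype.card (Fin d → ZMod L) : ℝ) e δ (4 ^ M) ((M : ℝ) ^ 2)
    ((1 + e) * (1 + 1 / e) * 4 ^ M + (1 + 1 / e) * ((M : ℝ) ^ 2 * 4 ^ M))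
    (Real.sqrt l / (Real.sqrt 2 * Real.sqrt U))
    (2 * e * Real.sqrt U / (Real.sqrt l * (∑ x, f x ^ 2) * 4 ^ M))
    (∫ θ, Nf f θ ∂μ) (∫ θ, cM M (r2 θ) * Tf f θ ^ 2 ∂μ) _ _ _ _ hsU hsl hs2 h22 hσ hn he he4 heδ
    hA1 (by positivity) (by positivity) hC'0 rfl rfl hI hGP hGQ hIP hIQ ?_
  · rw [hU2, hl2] at hfin
    exact hfin
  · rw [hU2, hl2]
    rw [← hts]
    refine le_trans (le_of_eq ?_) (le_trans hk (le_of_eq ?_))
    · ring
    · ring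


end

section

open Pool.Agent.N482.QLLONG

theorem long' (hT : S_TPB) (hR : S_ROTA) (hQ : S_RATIO) :
  ∀ (M : ℕ) (δ : ℝ), 0 < δ → ∃ a₀ C : ℝ, 0 < a₀ ∧ 0 ≤ C ∧
    ∀ (d L : ℕ) [NeZero L] (U l : ℝ) (μ : Measure ((Fin d → ZMod L) → ℝ))
      (f : (Fin d → ZMod L) → ℝ), 0 < U → 0 < l → Env U μ → (∀ x, lap f x = l * f x) →
      a1 μ ≤ a₀ →
      ∫ θ, cM M (r2 θ) * Lf f θ ^ 2 ∂μ ≤
        δ * (∑ x, f x ^ 2) * Real.sqrt U / Real.sqrt l +
        C * (∑ x, f x ^ 2) * U / ((Fintype.card (Fin d → ZMod L) : ℝ) * l) := by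
  intro M δ hδ
  rcases Nat.eq_zero_or_pos M with hM | hM
  · refine ⟨1, 0, one_pos, le_rfl, ?_⟩
    intro d L _ U l μ f hU hl hE hf ha
    have h0 : ∀ θ : (Fin d → ZMod L) → ℝ, cM M (r2 θ) * Lf f θ ^ 2 = 0 := by
      intro θ
      rw [hM]
      simp [cM]
    simp only [h0, integral_zero, zero_mul, add_zero]
    have : 0 ≤ ∑ x, f x ^ 2 := Finset.sum_nonneg fun _ _ => sq_nonneg _
    positivity
  obtain ⟨hc, hb, -⟩ := hQ.2 M hM
  set A : ℝ := AM M 1 with hA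
  have hA1 : 1 ≤ A := (hb 1 zero_le_one le_rfl).1
  set Q : ℝ := 4 ^ M with hQd
  have hQ0 : 0 < Q := by positivity
  set K : ℝ := (A + 1) / (2 * δ) with hK
  have hK0 : 0 < K := by positivity
  have hKδ : K * δ = (A + 1) / 2 := by rw [hK]; field_simp
  set C' : ℝ := Q * (4 + 2 * (M : ℝ) ^ 2) with hC'
  have hC'0 : 0 ≤ C' := by positivity
  refine ⟨δ / (4 * Q * K), K / 2 * ((M : ℝ) ^ 2 * Q ^ 2 + C'), by positivity, by positivity, ?_⟩
  intro d L _ U l μ f hU hl hE hf ha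
  have := hE.prob
  obtain ⟨m1, m2, m3, m4, m5, m6, m7, m8⟩ := hT.mem f
  set v : ℝ := (Fintype.card (Fin d → ZMod L) : ℝ) with hv
  have hv0 : 0 < v := by rw [hv]; exact_mod_cast Fintype.card_pos
  set σ : ℝ := ∑ x, f x ^ 2 with hσ
  have hσ0 : 0 ≤ σ := Finset.sum_nonneg fun _ _ => sq_nonneg _
  set a : ℝ := Real.sqrt U with had
  set b : ℝ := Real.sqrt l with hbd
  have ha0 : 0 < a := Real.sqrt_pos.2 hU
  have hb0 : 0 < b := Real.sqrt_pos.2 hl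
  have haU : U = a ^ 2 := (Real.sq_sqrt hU.le).symm
  have hbl : l = b ^ 2 := (Real.sq_sqrt hl.le).symm
  rcases hσ0.eq_or_lt with hσz | hσp
  · -- f = 0
    have hf0 : ∀ x, f x = 0 := by
      intro x
      have h1 := (Finset.sum_eq_zero_iff_of_nonneg (fun x _ => sq_nonneg (f x))).1 hσz.symm x
        (Finset.mem_univ x)
      exact pow_eq_zero_iff (two_ne_zero) |>.1 h1
    have h0 : ∀ θ : (Fin d → ZMod L) → ℝ, cM M (r2 θ) * Lf f θ ^ 2 = 0 := by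
      intro θ
      have : Lf f θ = 0 := by simp [Lf, Xf, Yf, hf0]
      rw [this]; ring
    simp only [h0, integral_zero]
    positivity
  set W : ℝ := ∫ θ, cM M (r2 θ) * Lf f θ ^ 2 ∂μ with hW
  obtain ⟨ro1, -, ro3, -⟩ := hR d L U μ hE M f
  have hN : ∫ θ, Nf f θ ∂μ ≤ a / b * σ := hE.irb l f hl hf
  -- bounds
  have b0 : ∫ θ, (1 + mx θ) ^ (2 * M) ∂μ ≤ A := by
    rw [ro1]
    have h1 : ∫ θ, AM M (r2 θ) ∂μ ≤ ∫ _θ : (Fin d → ZMod L) → ℝ, A ∂μ := by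
      refine integral_mono_of_nonneg (Eventually.of_forall fun θ => ?_) (integrable_const _)
        (Eventually.of_forall fun θ => ?_)
      · obtain ⟨c1, c2, -⟩ := hT.bounds f θ
        exact zero_le_one.trans (hb _ c1 c2).1
      · obtain ⟨c1, c2, -⟩ := hT.bounds f θ
        exact (hb _ c1 c2).2.1
    simpa using h1
  have hiN : Integrable (fun θ => Nf f θ) μ := integ hT m6
  have b2 : ∫ θ, Lf f θ ^ 2 * (1 + mx θ) ^ (2 * M) ∂μ ≤ Q * (a / b * σ) := by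
    have h1 : ∫ θ, Lf f θ ^ 2 * (1 + mx θ) ^ (2 * M) ∂μ ≤ ∫ θ, Q * Nf f θ ∂μ := by
      refine integral_mono_of_nonneg (Eventually.of_forall fun θ => ?_) (hiN.const_mul _)
        (Eventually.of_forall fun θ => ?_)
      · have := (mx_bd hT θ).1
        simp only [Pi.zero_apply]
        positivity
      · simp only
        have h2 := P_bd hT M θ
        rw [← pow_mul, mul_comm M 2] at h2
        rw [mul_comm]
        exact mul_le_mul h2 (Lf_le hT f θ) (sq_nonneg _) hQ0.le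
    rw [integral_const_mul] at h1
    exact h1.trans (mul_le_mul_of_nonneg_left hN hQ0.le)
  have g0 : ∫ θ, gr ((1 + mx) ^ M) θ ∂μ ≤ (M : ℝ) ^ 2 * Q / v := by
    have h1 : ∫ θ, gr ((1 + mx) ^ M) θ ∂μ ≤
        ∫ _θ : (Fin d → ZMod L) → ℝ, (M : ℝ) ^ 2 * Q / v ∂μ :=
      integral_mono_of_nonneg (Eventually.of_forall fun θ =>
        Finset.sum_nonneg fun _ _ => sq_nonneg _) (integrable_const _)
        (Eventually.of_forall fun θ => grP_bd hT M θ)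
    simpa using h1
  have hiq : ∀ x : Fin d → ZMod L, Integrable (fun θ => f x ^ 2 * qx x θ) μ := fun x =>
    (integ hT (qx_mem hT x)).const_mul _
  have g2 : ∫ θ, gr ((1 + mx) ^ M * Lf f) θ ∂μ ≤ 4 * Q * (σ * a1 μ) + C' / v * (a / b * σ) := by
    have hi1 : Integrable (fun θ => 4 * Q * ∑ x, f x ^ 2 * qx x θ) μ :=
      (integrable_finsetSum _ fun x _ => hiq x).const_mul _
    have hi2 : Integrable (fun θ => C' / v * Nf f θ) μ := hiN.const_mul _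
    have h1 : ∫ θ, gr ((1 + mx) ^ M * Lf f) θ ∂μ ≤
        ∫ θ, (4 * Q * (∑ x, f x ^ 2 * qx x θ) + C' / v * Nf f θ) ∂μ :=
      integral_mono_of_nonneg (Eventually.of_forall fun θ =>
        Finset.sum_nonneg fun _ _ => sq_nonneg _) (hi1.add hi2)
        (Eventually.of_forall fun θ => grPL_bd hT M f θ)
    rw [integral_add hi1 hi2, integral_const_mul, integral_const_mul,
      integral_finsetSum _ fun x _ => hiq x] at h1
    refine h1.trans (add_le_add ?_ (mul_le_mul_of_nonneg_left hN (by positivity)))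
    apply mul_le_mul_of_nonneg_left _ (by positivity)
    rw [hσ, Finset.sum_mul]
    refine Finset.sum_le_sum fun x _ => ?_
    rw [integral_const_mul]
    exact mul_le_mul_of_nonneg_left (qx_int hT hE x) (sq_nonneg _)
  -- parameters
  set s : ℝ := K * b / a with hs
  set T : ℝ := a / (K ^ 2 * Q * σ * b) with hTd
  have hs0 : 0 < s := by positivity
  have hT0 : 0 < T := by positivity
  have ht2 : Real.sqrt T * Real.sqrt T = T := Real.mul_self_sqrt hT0.le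
  have h1 := ineq hT hE hf M (Real.sqrt T) (Real.sqrt T * s)
  rw [ro3] at h1
  have q1 : 2 * Real.sqrt T * l * (Real.sqrt T * s) = T * (2 * s * b ^ 2) := by
    rw [hbl]
    calc _ = (Real.sqrt T * Real.sqrt T) * (2 * s * b ^ 2) := by ring
      _ = _ := by rw [ht2]
  have q2 : (Real.sqrt T * s) ^ 2 = T * s ^ 2 := by
    rw [mul_pow, pow_two (Real.sqrt T), ht2]
  have q3 : Real.sqrt T ^ 2 = T := by rw [pow_two, ht2]
  rw [q1, q2, q3] at h1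
  have h2 : U * ((∫ θ, gr ((1 + mx) ^ M) θ ∂μ) + T * s ^ 2 * ∫ θ, gr ((1 + mx) ^ M * Lf f) θ ∂μ) ≤
      a ^ 2 * ((M : ℝ) ^ 2 * Q / v + T * s ^ 2 * (4 * Q * (σ * a1 μ) + C' / v * (a / b * σ))) := by
    rw [haU]
    apply mul_le_mul_of_nonneg_left _ (sq_nonneg _)
    exact add_le_add g0 (mul_le_mul_of_nonneg_left g2 (by positivity))
  have h3 : T * l / 2 * σ * ((∫ θ, (1 + mx θ) ^ (2 * M) ∂μ) +
        T * s ^ 2 * ∫ θ, Lf f θ ^ 2 * (1 + mx θ) ^ (2 * M) ∂μ) ≤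
      T * b ^ 2 / 2 * σ * (A + T * s ^ 2 * (Q * (a / b * σ))) := by
    rw [hbl]
    apply mul_le_mul_of_nonneg_left _ (by positivity)
    exact add_le_add b0 (mul_le_mul_of_nonneg_left b2 (by positivity))
  have h4 : T * s ^ 2 * (Q * (a / b * σ)) = 1 := by
    rw [hTd, hs]
    field_simp
  have h5 : a ^ 2 * ((M : ℝ) ^ 2 * Q / v) =
      T * (a * b * ((M : ℝ) ^ 2 * Q ^ 2 * K ^ 2 * σ / v)) := by
    rw [hTd]
    field_simp
  have h6 : a ^ 2 * s ^ 2 = K ^ 2 * b ^ 2 := by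
    rw [hs]
    field_simp
  have h7 : T * (2 * s * b ^ 2 * W) ≤ T * (a * b * ((M : ℝ) ^ 2 * Q ^ 2 * K ^ 2 * σ / v) +
      K ^ 2 * b ^ 2 * (4 * Q * (σ * a1 μ) + C' / v * (a / b * σ)) + b ^ 2 / 2 * σ * (A + 1)) := by
    rw [h4] at h3
    have h8 : a ^ 2 * ((M : ℝ) ^ 2 * Q / v +
        T * s ^ 2 * (4 * Q * (σ * a1 μ) + C' / v * (a / b * σ))) =
        a ^ 2 * ((M : ℝ) ^ 2 * Q / v) +
        T * (a ^ 2 * s ^ 2) * (4 * Q * (σ * a1 μ) + C' / v * (a / b * σ)) := by ring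
    rw [h8, h5, h6] at h2
    calc T * (2 * s * b ^ 2 * W) = T * (2 * s * b ^ 2) * W := by ring
      _ ≤ _ := h1
      _ ≤ _ := add_le_add h2 h3
      _ = _ := by ring
  have h8 := le_of_mul_le_mul_left h7 hT0
  have h9 : 4 * Q * K * a1 μ ≤ δ := by
    have := mul_le_mul_of_nonneg_left ha (show 0 ≤ 4 * Q * K by positivity)
    rwa [mul_div_cancel₀] at this
    positivity
  -- final comparison
  have h10 : 2 * s * b ^ 2 * W ≤ 2 * s * b ^ 2 * (δ * σ * a / b +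
      K / 2 * ((M : ℝ) ^ 2 * Q ^ 2 + C') * σ * U / (v * l)) := by
    refine h8.trans ?_
    have e1 : 2 * s * b ^ 2 * (δ * σ * a / b +
      K / 2 * ((M : ℝ) ^ 2 * Q ^ 2 + C') * σ * U / (v * l)) =
      2 * (K * δ) * b ^ 2 * σ + K ^ 2 * ((M : ℝ) ^ 2 * Q ^ 2 + C') * a * b * σ / v := by
      rw [hs, haU, hbl]
      field_simp
    have e2 : a * b * ((M : ℝ) ^ 2 * Q ^ 2 * K ^ 2 * σ / v) +
      K ^ 2 * b ^ 2 * (4 * Q * (σ * a1 μ) + C' / v * (a / b * σ)) + b ^ 2 / 2 * σ * (A + 1) =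
      K * b ^ 2 * σ * (4 * Q * K * a1 μ) + b ^ 2 * σ * ((A + 1) / 2) +
        K ^ 2 * ((M : ℝ) ^ 2 * Q ^ 2 + C') * a * b * σ / v := by
      field_simp
      ring
    rw [e1, e2, ← hKδ]
    have h11 : K * b ^ 2 * σ * (4 * Q * K * a1 μ) ≤ K * b ^ 2 * σ * δ :=
      mul_le_mul_of_nonneg_left h9 (by positivity)
    have h12 : K * b ^ 2 * σ * δ + b ^ 2 * σ * (K * δ) = 2 * (K * δ) * b ^ 2 * σ := by ring
    linarith
  exact le_of_mul_le_mul_left h10 (by positivity)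


end

section

open Pool.Agent.N8.QLSQ

theorem sqq' (hT : S_TPB) :
  ∃ C : ℝ, 0 ≤ C ∧ ∀ (d L : ℕ) [NeZero L] (U l : ℝ) (μ : Measure ((Fin d → ZMod L) → ℝ))
      (f : (Fin d → ZMod L) → ℝ), 0 < U → 0 < l → Env U μ → (∀ x, lap f x = l * f x) →
      ∫ θ, Xf f θ ^ 2 * (1 - r2 θ) ^ 2 ∂μ ≤
        C * ((∑ x, f x ^ 2) * Real.sqrt U / Real.sqrt l * a2 μ +
          (∑ x, f x ^ 2) * U / ((Fintype.card (Fin d → ZMod L) : ℝ) * l)) := by
  refine ⟨8, by norm_num, ?_⟩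
  intro d L _ U l μ f hU hl hE hf
  have := hE.prob
  obtain ⟨m1, m2, m3, m4, m5, m6, m7, m8⟩ := hT.mem f
  obtain ⟨v, hv⟩ : ∃ v : ℝ, v = (Fintype.card (Fin d → ZMod L) : ℝ) := ⟨_, rfl⟩
  have hv0 : 0 < v := by rw [hv]; exact_mod_cast Fintype.card_pos
  obtain ⟨σ, hσ⟩ : ∃ σ : ℝ, σ = ∑ x, f x ^ 2 := ⟨_, rfl⟩
  have hσ0 : 0 ≤ σ := by rw [hσ]; exact Finset.sum_nonneg fun _ _ => sq_nonneg _
  obtain ⟨a, ha⟩ : ∃ a : ℝ, a = Real.sqrt U := ⟨_, rfl⟩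
  obtain ⟨b, hb⟩ : ∃ b : ℝ, b = Real.sqrt l := ⟨_, rfl⟩
  have ha0 : 0 < a := by rw [ha]; exact Real.sqrt_pos.2 hU
  have hb0 : 0 < b := by rw [hb]; exact Real.sqrt_pos.2 hl
  have haU : U = a ^ 2 := by rw [ha]; exact (Real.sq_sqrt hU.le).symm
  have hbl : l = b ^ 2 := by rw [hb]; exact (Real.sq_sqrt hl.le).symm
  have hA0 : 0 ≤ a2 μ := integral_nonneg fun θ => sq_nonneg _
  obtain ⟨A, hA⟩ : ∃ A : ℝ, A = a2 μ := ⟨_, rfl⟩
  obtain ⟨W, hW⟩ : ∃ W : ℝ, W = ∫ θ, Xf f θ ^ 2 * (1 - r2 θ) ^ 2 ∂μ := ⟨_, rfl⟩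
  rw [← hW, ← hσ, ← ha, ← hb, ← hA, ← hv]
  rw [← hA] at hA0
  rcases hσ0.eq_or_lt with hσz | hσp
  · have hf0 : ∀ x, f x = 0 := by
      intro x
      rw [hσ] at hσz
      have h1 := (Finset.sum_eq_zero_iff_of_nonneg (fun x _ => sq_nonneg (f x))).1 hσz.symm x
        (Finset.mem_univ x)
      exact pow_eq_zero_iff (two_ne_zero) |>.1 h1
    have h0 : ∀ θ : (Fin d → ZMod L) → ℝ, Xf f θ ^ 2 * (1 - r2 θ) ^ 2 = 0 := by
      intro θ
      have : Xf f θ = 0 := by simp [Xf, hf0]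
      rw [this]; ring
    have hW0 : W = 0 := by
      rw [hW]
      simp only [h0, integral_zero]
    rw [hW0, ← hσz]
    simp
  have hN : ∫ θ, Nf f θ ∂μ ≤ a / b * σ := by
    rw [ha, hb, hσ]
    exact hE.irb l f hl hf
  have hiN : Integrable (fun θ => Nf f θ) μ := integ hT m6
  have g0 : ∫ θ, gr (1 - r2) θ ∂μ ≤ 4 / v := by
    have h1 : ∫ θ, gr (1 - r2) θ ∂μ ≤ ∫ _θ : (Fin d → ZMod L) → ℝ, 4 / v ∂μ :=
      integral_mono_of_nonneg (Eventually.of_forall fun θ =>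
        Finset.sum_nonneg fun _ _ => sq_nonneg _) (integrable_const _)
        (Eventually.of_forall fun θ => by rw [hv]; exact grP_bd hT θ)
    simpa using h1
  have hP2 : Integrable (fun θ : (Fin d → ZMod L) → ℝ => (1 - r2 θ) ^ 2) μ :=
    integ hT (pow_mem (P_mem hT) 2)
  have g2 : ∫ θ, gr ((1 - r2) * Xf f) θ ∂μ ≤ 2 * σ * A + 8 / v * (a / b * σ) := by
    have hi1 : Integrable (fun θ : (Fin d → ZMod L) → ℝ => 2 * σ * (1 - r2 θ) ^ 2) μ :=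
      hP2.const_mul _
    have hi2 : Integrable (fun θ => 8 / v * Nf f θ) μ := hiN.const_mul _
    have h1 : ∫ θ, gr ((1 - r2) * Xf f) θ ∂μ ≤
        ∫ θ, (2 * σ * (1 - r2 θ) ^ 2 + 8 / v * Nf f θ) ∂μ :=
      integral_mono_of_nonneg (Eventually.of_forall fun θ =>
        Finset.sum_nonneg fun _ _ => sq_nonneg _) (hi1.add hi2)
        (Eventually.of_forall fun θ => by rw [hv, hσ]; exact grPX_bd hT f θ)
    rw [integral_add hi1 hi2, integral_const_mul, integral_const_mul] at h1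
    have e : ∫ θ, (1 - r2 θ) ^ 2 ∂μ = A := by rw [hA]; rfl
    rw [e] at h1
    exact h1.trans (add_le_add le_rfl (mul_le_mul_of_nonneg_left hN (by positivity)))
  -- parameters
  obtain ⟨T, hTd⟩ : ∃ T : ℝ, T = a / (b * σ) := ⟨_, rfl⟩
  obtain ⟨s, hs⟩ : ∃ s : ℝ, s = b / a := ⟨_, rfl⟩
  have hs0 : 0 < s := by rw [hs]; positivity
  have hT0 : 0 < T := by rw [hTd]; positivity
  have ht2 : Real.sqrt T * Real.sqrt T = T := Real.mul_self_sqrt hT0.le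
  have h1 := ineq hT hE hf (Real.sqrt T) (Real.sqrt T * s)
  have e : ∫ θ, (1 - r2 θ) ^ 2 ∂μ = A := by rw [hA]; rfl
  rw [← hW, ← hσ, e] at h1
  have q1 : 2 * Real.sqrt T * l * (Real.sqrt T * s) = T * (2 * s * b ^ 2) := by
    rw [hbl]
    calc _ = (Real.sqrt T * Real.sqrt T) * (2 * s * b ^ 2) := by ring
      _ = _ := by rw [ht2]
  have q2 : (Real.sqrt T * s) ^ 2 = T * s ^ 2 := by
    rw [mul_pow, pow_two (Real.sqrt T), ht2]
  have q3 : Real.sqrt T ^ 2 = T := by rw [pow_two, ht2]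
  rw [q1, q2, q3, haU, hbl] at h1
  have h2 : a ^ 2 * ((∫ θ, gr (1 - r2) θ ∂μ) + T * s ^ 2 * ∫ θ, gr ((1 - r2) * Xf f) θ ∂μ) ≤
      a ^ 2 * (4 / v + T * s ^ 2 * (2 * σ * A + 8 / v * (a / b * σ))) := by
    apply mul_le_mul_of_nonneg_left _ (sq_nonneg _)
    exact add_le_add g0 (mul_le_mul_of_nonneg_left g2 (by positivity))
  have h3 := h1.trans (add_le_add h2 le_rfl)
  have k1 : T * (2 * s * b ^ 2) * W = 2 * (b ^ 2 / σ * W) := by
    rw [hTd, hs]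
    field_simp
  have k2 : a ^ 2 * (4 / v + T * s ^ 2 * (2 * σ * A + 8 / v * (a / b * σ))) =
      12 * (a ^ 2 / v) + 2 * (a * b * A) := by
    rw [hTd, hs]
    field_simp
    ring
  have k3 : T * b ^ 2 / 2 * σ * (A + T * s ^ 2 * W) = a * b * A / 2 + b ^ 2 / σ * W / 2 := by
    rw [hTd, hs]
    field_simp
  rw [k1, k2, k3] at h3
  have h4 : b ^ 2 / σ * W ≤ 8 * (a ^ 2 / v) + 8 * (a * b * A) := by
    have : 0 ≤ a * b * A := by positivity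
    linarith
  have h5 : W = σ / b ^ 2 * (b ^ 2 / σ * W) := by field_simp
  rw [h5]
  refine (mul_le_mul_of_nonneg_left h4 (by positivity)).trans (le_of_eq ?_)
  rw [haU, hbl]
  field_simp
  ring


end

end Pool.Agent.H993.MD
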