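import Pool.Agent.H993.DM.E
import Pool.Agent.H993.MD.T

/-!
# Project MD: the momentum distribution, upper bound mode by mode
-/

namespace Pool.Agent.H993.MD

open MeasureTheory
open Pool.Agent.N657.QR Pool.Agent.N657.QL
open Pool.Agent.N222.QLUP (integ cMmem)

/-- The upper bound for one mode in terms of the a priori bounds. -/
theorem up_core {d L : ℕ} [NeZero L] {U l : ℝ} {M : ℕ} {μ : Measure ((Fin d → ZMod L) → ℝ)}
    (hE : Env U μ) {A C B D C5 η : ℝ} (f : (Fin d → ZMod L) → ℝ) (hD : 0 ≤ D) (hη : 0 < η)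
    (hDb : ∀ u, 0 ≤ u → u ≤ 1 → B ≤ u * cM M u + D * (1 - u))
    (hm : (∫ θ, cM M (r2 θ) * Lf f θ ^ 2 ∂μ) + ∫ θ, cM M (r2 θ) * Tf f θ ^ 2 ∂μ ≤
        A * ((∑ x, f x ^ 2) * Real.sqrt U / Real.sqrt l) +
          C * ((∑ x, f x ^ 2) * U / ((Fintype.card (Fin d → ZMod L) : ℝ) * l)))
    (hq : ∫ θ, Xf f θ ^ 2 * (1 - r2 θ) ^ 2 ∂μ ≤
        C5 * ((∑ x, f x ^ 2) * Real.sqrt U / Real.sqrt l * a2 μ +
          (∑ x, f x ^ 2) * U / ((Fintype.card (Fin d → ZMod L) : ℝ) * l)))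
    (hirb : ∫ θ, Nf f θ ∂μ ≤ (∑ x, f x ^ 2) * Real.sqrt U / Real.sqrt l) :
    B * (∫ θ, Nf f θ ∂μ) ≤
      A * ((∑ x, f x ^ 2) * Real.sqrt U / Real.sqrt l) +
        C * ((∑ x, f x ^ 2) * U / ((Fintype.card (Fin d → ZMod L) : ℝ) * l)) +
      D * (η / 2 * ((∑ x, f x ^ 2) * Real.sqrt U / Real.sqrt l) +
        C5 / η * ((∑ x, f x ^ 2) * Real.sqrt U / Real.sqrt l * a2 μ +
          (∑ x, f x ^ 2) * U / ((Fintype.card (Fin d → ZMod L) : ℝ) * l))) := by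
  have := hE.prob
  obtain ⟨mX, mY, -, -, mr, mN, mL, mT⟩ := tpb.mem f
  have hc := cMmem (V := Fin d → ZMod L) tpb M
  have m1 : (fun θ : (Fin d → ZMod L) → ℝ => 1 - r2 θ) ∈ TP (Fin d → ZMod L) :=
    Subalgebra.sub_mem _ (Subalgebra.one_mem _) mr
  have iN : Integrable (fun θ => Nf f θ) μ := integ tpb μ _ mN
  have i1 : Integrable (fun θ => r2 θ * cM M (r2 θ) * Nf f θ) μ :=
    integ tpb μ _ (Subalgebra.mul_mem _ (Subalgebra.mul_mem _ mr hc) mN)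
  have i2 : Integrable (fun θ => (1 - r2 θ) * Nf f θ) μ :=
    integ tpb μ _ (Subalgebra.mul_mem _ m1 mN)
  have i3 : Integrable (fun θ => Nf f θ * (1 - r2 θ) ^ 2) μ :=
    integ tpb μ _ (Subalgebra.mul_mem _ mN (Subalgebra.pow_mem _ m1 2))
  have hN0 : ∀ θ, 0 ≤ Nf f θ := fun θ => by
    unfold Nf; positivity
  have h1 : B * (∫ θ, Nf f θ ∂μ) ≤ (∫ θ, r2 θ * cM M (r2 θ) * Nf f θ ∂μ) +
      D * ∫ θ, (1 - r2 θ) * Nf f θ ∂μ := by
    rw [← integral_const_mul, ← integral_const_mul, ← integral_add i1 (i2.const_mul D)]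
    refine integral_mono (iN.const_mul B) (i1.add (i2.const_mul D)) fun θ => ?_
    obtain ⟨b1, b2, -⟩ := tpb.bounds f θ
    have h3 := mul_le_mul_of_nonneg_right (hDb _ b1 b2) (hN0 θ)
    show B * Nf f θ ≤ r2 θ * cM M (r2 θ) * Nf f θ + D * ((1 - r2 θ) * Nf f θ)
    linarith
  rw [Pool.Agent.N222.QLUP.mode tpb] at h1
  have h2 : ∫ θ, (1 - r2 θ) * Nf f θ ∂μ ≤ η / 2 * (∫ θ, Nf f θ ∂μ) +
      1 / (2 * η) * ∫ θ, Nf f θ * (1 - r2 θ) ^ 2 ∂μ := by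
    rw [← integral_const_mul, ← integral_const_mul,
      ← integral_add (iN.const_mul _) (i3.const_mul _)]
    refine integral_mono i2 ((iN.const_mul _).add (i3.const_mul _)) fun θ => ?_
    show (1 - r2 θ) * Nf f θ ≤ η / 2 * Nf f θ + 1 / (2 * η) * (Nf f θ * (1 - r2 θ) ^ 2)
    have h3 : (1 - r2 θ) ≤ η / 2 + 1 / (2 * η) * (1 - r2 θ) ^ 2 := by
      have e : η / 2 + 1 / (2 * η) * (1 - r2 θ) ^ 2 - (1 - r2 θ) =
          1 / (2 * η) * (η - (1 - r2 θ)) ^ 2 := by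
        field_simp
        ring
      have : 0 ≤ 1 / (2 * η) * (η - (1 - r2 θ)) ^ 2 := by positivity
      linarith
    have h4 := mul_le_mul_of_nonneg_right h3 (hN0 θ)
    linarith
  rw [Pool.Agent.N402.QL_SUMQ.rotXY tpb μ hE.rot f] at h2
  have h5 : ∫ θ, (1 - r2 θ) * Nf f θ ∂μ ≤
      η / 2 * ((∑ x, f x ^ 2) * Real.sqrt U / Real.sqrt l) +
        C5 / η * ((∑ x, f x ^ 2) * Real.sqrt U / Real.sqrt l * a2 μ +
          (∑ x, f x ^ 2) * U / ((Fintype.card (Fin d → ZMod L) : ℝ) * l)) := by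
    have h6 := mul_le_mul_of_nonneg_left hirb (by positivity : 0 ≤ η / 2)
    have h7 := mul_le_mul_of_nonneg_left hq (by positivity : 0 ≤ 1 / η)
    have e : 1 / (2 * η) * (2 * ∫ θ, Xf f θ ^ 2 * (1 - r2 θ) ^ 2 ∂μ) =
        1 / η * ∫ θ, Xf f θ ^ 2 * (1 - r2 θ) ^ 2 ∂μ := by
      field_simp
    have e2 : C5 / η * ((∑ x, f x ^ 2) * Real.sqrt U / Real.sqrt l * a2 μ +
          (∑ x, f x ^ 2) * U / ((Fintype.card (Fin d → ZMod L) : ℝ) * l)) =
        1 / η * (C5 * ((∑ x, f x ^ 2) * Real.sqrt U / Real.sqrt l * a2 μ +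
          (∑ x, f x ^ 2) * U / ((Fintype.card (Fin d → ZMod L) : ℝ) * l))) := by ring
    rw [e] at h2
    rw [e2]
    linarith
  have h8 := mul_le_mul_of_nonneg_left h5 hD
  linarith

/-- The sharp upper bound for one mode. -/
theorem up_mode (d : ℕ) (hd : 2 ≤ d) (ε : ℝ) (hε : 0 < ε) : ∃ U₀ : ℝ, 0 < U₀ ∧
    ∀ U : ℝ, 0 < U → U ≤ U₀ → ∃ L₀ : ℕ, ∀ (L : ℕ) [NeZero L], L₀ ≤ L →
      ∀ μ : Measure ((Fin d → ZMod L) → ℝ), Env U μ → ∀ (l : ℝ) (f : (Fin d → ZMod L) → ℝ),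
      16 / (L : ℝ) ^ 2 ≤ l → (∀ x, lap f x = l * f x) →
      ∫ θ, Nf f θ ∂μ ≤ (1 + ε) * ((∑ x, f x ^ 2) * Real.sqrt (U / (2 * l))) := by
  obtain ⟨C2, hC2, hsum⟩ := sumq d hd
  obtain ⟨δ, hδ⟩ : ∃ δ, δ = min 1 (ε / 40) := ⟨_, rfl⟩
  have hδ0 : 0 < δ := by rw [hδ]; exact lt_min one_pos (by positivity)
  have hδ1 : δ ≤ 1 := by rw [hδ]; exact min_le_left _ _
  have hδ2 : δ ≤ ε / 40 := by rw [hδ]; exact min_le_right _ _
  obtain ⟨M, hM, hMr⟩ := ratio.1 δ hδ0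
  obtain ⟨hB, hbd, D, hD, hDb⟩ := ratio.2 M hM
  obtain ⟨C3, hC3, ht⟩ := trans' tpb rota ratio M δ hδ0
  obtain ⟨a0, C4, ha0, hC4, hl⟩ := long' tpb rota ratio M (δ * cM M 1) (mul_pos hδ0 hB)
  obtain ⟨C5, hC5, hq⟩ := sqq' tpb
  obtain ⟨B, hBe⟩ : ∃ B, B = cM M 1 := ⟨_, rfl⟩
  rw [← hBe] at hB hMr hDb hl
  obtain ⟨η, hη⟩ : ∃ η, η = ε * B / (5 * (D + 1)) := ⟨_, rfl⟩
  have hη0 : 0 < η := by rw [hη]; positivity
  obtain ⟨K, hK⟩ : ∃ K, K = (C3 + C4) / 4 + D * C5 / (4 * η) := ⟨_, rfl⟩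
  have hK0 : 0 ≤ K := by rw [hK]; positivity
  refine ⟨min 1 (min ((a0 / C2) ^ 2) (η * ε * B / (10 * (D * C5 * C2 + 1)))), by positivity, ?_⟩
  intro U hU hU0
  have hU1 : U ≤ 1 := hU0.trans (min_le_left _ _)
  have hUa : Real.sqrt U ≤ a0 / C2 := by
    rw [← Real.sqrt_sq (by positivity : 0 ≤ a0 / C2)]
    exact Real.sqrt_le_sqrt (hU0.trans ((min_le_right _ _).trans (min_le_left _ _)))
  have hUb : U ≤ η * ε * B / (10 * (D * C5 * C2 + 1)) :=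
    hU0.trans ((min_le_right _ _).trans (min_le_right _ _))
  obtain ⟨L1, hL1⟩ := hsum U hU hU1
  refine ⟨max L1 (⌈10 * K / (ε * B)⌉₊ + 1), ?_⟩
  intro L _ hLL μ hE l f hl16 hf
  obtain ⟨ha1, ha2⟩ := hL1 L ((le_max_left _ _).trans hLL) μ hE
  have hLK : 10 * K / (ε * B) ≤ L := by
    refine (Nat.le_ceil _).trans ?_
    exact_mod_cast (Nat.le_succ _).trans ((le_max_right _ _).trans hLL)
  have hL0 : 0 < (L : ℝ) := by exact_mod_cast Nat.pos_of_ne_zero (NeZero.ne L)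
  have hl0 : 0 < l := lt_of_lt_of_le (by positivity) hl16
  have hsU : 0 < Real.sqrt U := Real.sqrt_pos.2 hU
  have hsU1 : Real.sqrt U ≤ 1 := by rw [Real.sqrt_le_one]; exact hU1
  have hUU : Real.sqrt U * Real.sqrt U = U := Real.mul_self_sqrt hU.le
  have hsl : 0 < Real.sqrt l := Real.sqrt_pos.2 hl0
  have hll : Real.sqrt l * Real.sqrt l = l := Real.mul_self_sqrt hl0.le
  have hsq4 : 4 / (L : ℝ) ≤ Real.sqrt l := by
    apply Real.le_sqrt_of_sq_le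
    have h1 : (4 / (L : ℝ)) ^ 2 = 16 / (L : ℝ) ^ 2 := by
      rw [div_pow]; norm_num
    rw [h1]; exact hl16
  have hs2 : 0 < Real.sqrt 2 := Real.sqrt_pos.2 two_pos
  have haa : a1 μ ≤ a0 := by
    refine ha1.trans ?_
    rw [le_div_iff₀ hC2] at hUa
    linarith
  have hVL : (L : ℝ) ^ 2 ≤ (Fintype.card (Fin d → ZMod L) : ℝ) := Pool.Agent.N987.QLLOWG.card_ge hd
  have hσ0 : 0 ≤ ∑ x, f x ^ 2 := Finset.sum_nonneg fun x _ => sq_nonneg _
  have hirb : ∫ θ, Nf f θ ∂μ ≤ (∑ x, f x ^ 2) * Real.sqrt U / Real.sqrt l := by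
    refine (hE.irb l f hl0 hf).trans (le_of_eq ?_)
    ring
  have t1 := ht d L U l μ f hU hl0 hE hf
  have t2 := hl d L U l μ f hU hl0 hE hf haa
  have t3 := hq d L U l μ f hU hl0 hE hf
  have hV0 : 0 < (Fintype.card (Fin d → ZMod L) : ℝ) := lt_of_lt_of_le (by positivity) hVL
  obtain ⟨A, hA⟩ : ∃ A, A = (1 + δ) * AM M 1 / Real.sqrt 2 + δ * B := ⟨_, rfl⟩
  have hm : (∫ θ, cM M (r2 θ) * Lf f θ ^ 2 ∂μ) + ∫ θ, cM M (r2 θ) * Tf f θ ^ 2 ∂μ ≤
        A * ((∑ x, f x ^ 2) * Real.sqrt U / Real.sqrt l) +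
          (C3 + C4) * ((∑ x, f x ^ 2) * U / ((Fintype.card (Fin d → ZMod L) : ℝ) * l)) := by
    have e : A * ((∑ x, f x ^ 2) * Real.sqrt U / Real.sqrt l) +
          (C3 + C4) * ((∑ x, f x ^ 2) * U / ((Fintype.card (Fin d → ZMod L) : ℝ) * l)) =
        ((1 + δ) * AM M 1 * (∑ x, f x ^ 2) * Real.sqrt U / (Real.sqrt 2 * Real.sqrt l) +
          C3 * (∑ x, f x ^ 2) * U / ((Fintype.card (Fin d → ZMod L) : ℝ) * l)) +
          (δ * B * (∑ x, f x ^ 2) * Real.sqrt U / Real.sqrt l +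
          C4 * (∑ x, f x ^ 2) * U / ((Fintype.card (Fin d → ZMod L) : ℝ) * l)) := by
      rw [hA]
      field_simp
      ring
    rw [e]
    linarith
  have core := up_core hE f hD hη0 hDb hm t3 hirb
  obtain ⟨W, hW⟩ : ∃ W, W = (∑ x, f x ^ 2) * Real.sqrt U / Real.sqrt l := ⟨_, rfl⟩
  obtain ⟨Z, hZ⟩ : ∃ Z, Z = (∑ x, f x ^ 2) * U / ((Fintype.card (Fin d → ZMod L) : ℝ) * l) :=
    ⟨_, rfl⟩
  obtain ⟨P, hP⟩ : ∃ P, P = ∫ θ, Nf f θ ∂μ := ⟨_, rfl⟩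
  have hW0 : 0 ≤ W := by rw [hW]; positivity
  have hZ0 : 0 ≤ Z := by rw [hZ]; positivity
  have hZW : Z ≤ W / (4 * L) := by
    have e1 : Z = W * (Real.sqrt U / ((Fintype.card (Fin d → ZMod L) : ℝ) * Real.sqrt l)) := by
      rw [hZ, hW]
      have : (∑ x, f x ^ 2) * Real.sqrt U / Real.sqrt l *
          (Real.sqrt U / ((Fintype.card (Fin d → ZMod L) : ℝ) * Real.sqrt l)) =
          (∑ x, f x ^ 2) * (Real.sqrt U * Real.sqrt U) /
            ((Fintype.card (Fin d → ZMod L) : ℝ) * (Real.sqrt l * Real.sqrt l)) := by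
        field_simp
      rw [this, hUU, hll]
    have e2 : Real.sqrt U / ((Fintype.card (Fin d → ZMod L) : ℝ) * Real.sqrt l) ≤ 1 / (4 * L) := by
      refine div_le_div₀ zero_le_one hsU1 (by positivity) ?_
      calc 4 * (L : ℝ) = (L : ℝ) ^ 2 * (4 / L) := by field_simp
        _ ≤ _ := mul_le_mul hVL hsq4 (by positivity) hV0.le
    rw [e1]
    calc W * (Real.sqrt U / ((Fintype.card (Fin d → ZMod L) : ℝ) * Real.sqrt l)) ≤
        W * (1 / (4 * L)) := mul_le_mul_of_nonneg_left e2 hW0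
      _ = _ := by ring
  rw [← hW, ← hZ, ← hP] at core
  rw [← hP]
  have hgoal : (∑ x, f x ^ 2) * Real.sqrt (U / (2 * l)) = W / Real.sqrt 2 := by
    rw [hW, Real.sqrt_div hU.le, Real.sqrt_mul (by norm_num : (0:ℝ) ≤ 2)]
    field_simp
  rw [hgoal]
  have hr2 : Real.sqrt 2 ≤ 2 := by
    rw [Real.sqrt_le_left (by norm_num)]
    norm_num
  have hr1 : 1 ≤ Real.sqrt 2 := by rw [Real.one_le_sqrt]; norm_num
  obtain ⟨r, hr⟩ : ∃ r, r = 1 / Real.sqrt 2 := ⟨_, rfl⟩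
  have hr0 : 1 / 2 ≤ r := by
    rw [hr]
    exact one_div_le_one_div_of_le hs2 hr2
  have hr1' : r ≤ 1 := by
    rw [hr, div_le_one hs2]
    exact hr1
  have hAM0 : 0 ≤ AM M 1 := by linarith [(hbd 1 zero_le_one le_rfl).1]
  have hAB : A ≤ B * (r + 4 * δ) := by
    have e1 : A = (1 + δ) * AM M 1 * r + δ * B := by rw [hA, hr]; ring
    have e2 : (1 + δ) * AM M 1 * r ≤ (1 + δ) * ((1 + δ) * B) * r := by gcongr
    have e3 : (1 + δ) ^ 2 ≤ 1 + 3 * δ := by nlinarith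
    have e4 : (1 + δ) ^ 2 * r ≤ r + 3 * δ := by nlinarith
    have e5 : B * ((1 + δ) ^ 2 * r) ≤ B * (r + 3 * δ) := mul_le_mul_of_nonneg_left e4 hB.le
    rw [e1]
    nlinarith
  -- the four errors
  have E1 : 4 * δ * B ≤ ε * B / 10 := by nlinarith
  have E2 : D * (η / 2) ≤ ε * B / 10 := by
    have e1 : D * (η / 2) = ε * B / 10 * (D / (D + 1)) := by
      have h5 : (D + 1) ≠ 0 := by positivity
      rw [hη, show ε * B / (5 * (D + 1)) / 2 = ε * B / 10 * (1 / (D + 1)) by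
        field_simp; norm_num]
      ring
    rw [e1]
    have e2 : D / (D + 1) ≤ 1 := by
      rw [div_le_one (by positivity)]
      linarith
    exact mul_le_of_le_one_right (by positivity) e2
  have E3 : D * (C5 / η * (C2 * U)) ≤ ε * B / 10 := by
    have hp : 0 < D * C5 * C2 + 1 := by positivity
    calc D * (C5 / η * (C2 * U)) = D * C5 * C2 / η * U := by ring
      _ ≤ D * C5 * C2 / η * (η * ε * B / (10 * (D * C5 * C2 + 1))) :=
        mul_le_mul_of_nonneg_left hUb (by positivity)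
      _ = ε * B / 10 * (D * C5 * C2 / (D * C5 * C2 + 1)) := by field_simp
      _ ≤ ε * B / 10 * 1 := by
        refine mul_le_mul_of_nonneg_left ?_ (by positivity)
        rw [div_le_one hp]
        linarith
      _ = _ := mul_one _
  have E4 : ((C3 + C4) + D * (C5 / η)) * (1 / (4 * L)) ≤ ε * B / 10 := by
    have e1 : ((C3 + C4) + D * (C5 / η)) * (1 / (4 * L)) = K / L := by
      rw [hK]
      field_simp
    rw [e1, div_le_iff₀ hL0]
    rw [div_le_iff₀ (by positivity)] at hLK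
    linarith
  have F1 : A * W ≤ B * (r + 4 * δ) * W := mul_le_mul_of_nonneg_right hAB hW0
  have F2 : D * (C5 / η * (W * a2 μ)) ≤ ε * B / 10 * W := by
    have e1 : D * (C5 / η * (W * a2 μ)) ≤ D * (C5 / η * (W * (C2 * U))) := by
      have : 0 ≤ C5 / η := by positivity
      gcongr
    have e2 := mul_le_mul_of_nonneg_right E3 hW0
    linarith
  have F3 : ((C3 + C4) + D * (C5 / η)) * Z ≤ ε * B / 10 * W := by
    have e0 : 0 ≤ (C3 + C4) + D * (C5 / η) := by positivity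
    calc ((C3 + C4) + D * (C5 / η)) * Z ≤ ((C3 + C4) + D * (C5 / η)) * (W / (4 * L)) :=
          mul_le_mul_of_nonneg_left hZW e0
      _ = ((C3 + C4) + D * (C5 / η)) * (1 / (4 * L)) * W := by ring
      _ ≤ _ := mul_le_mul_of_nonneg_right E4 hW0
  have F4 : D * (η / 2) * W ≤ ε * B / 10 * W := mul_le_mul_of_nonneg_right E2 hW0
  have F5 : 4 * δ * B * W ≤ ε * B / 10 * W := mul_le_mul_of_nonneg_right E1 hW0
  have F6 : B * P ≤ B * (r * W) + 4 * (ε * B / 10 * W) := by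
    have e1 : A * W + (C3 + C4) * Z + D * (η / 2 * W + C5 / η * (W * a2 μ + Z)) =
        A * W + D * (η / 2) * W + D * (C5 / η * (W * a2 μ)) +
          ((C3 + C4) + D * (C5 / η)) * Z := by ring
    rw [e1] at core
    have e2 : B * (r + 4 * δ) * W = B * (r * W) + 4 * δ * B * W := by ring
    linarith
  have F7 : 4 * (ε * B / 10 * W) ≤ B * (ε * r * W) := by
    have e1 : 0 ≤ ε * B * W := by positivity
    nlinarith
  have F8 : B * P ≤ B * ((1 + ε) * (r * W)) := by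
    have e1 : B * ((1 + ε) * (r * W)) = B * (r * W) + B * (ε * r * W) := by ring
    rw [e1]
    linarith
  have F9 := le_of_mul_le_mul_left F8 hB
  have e1 : W / Real.sqrt 2 = r * W := by rw [hr]; ring
  rw [e1]
  exact F9

end Pool.Agent.H993.MD
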