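import Pool.Agent.H993.MD.A

/-!
# Project MD: both quadratures of one mode
-/

namespace Pool.Agent.H993.MD

open MeasureTheory
open Pool.Agent.N657.QR Pool.Agent.N657.QL Pool.Agent.H993.DM
open Pool.Agent.N157 (QR_FOU.cc QR_FOU.ss QR_FOU.BB)
open Pool.Agent.N498.QL_SYM (nnw_nonneg nnw_trans)

section

variable {d L : ℕ} [NeZero L]

theorem BB_int {μ : Measure ((Fin d → ZMod L) → ℝ)} [IsProbabilityMeasure μ]
    {Ψ : ((Fin d → ZMod L) → ℤ) → ℝ} (h : ∀ x y, cr x y Ψ = ∫ θ, Real.cos (θ x - θ y) ∂μ)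
    (f : (Fin d → ZMod L) → ℝ) : QR_FOU.BB (KR Ψ) f = ∫ θ, Nf f θ ∂μ := by
  have hi : ∀ x y : Fin d → ZMod L,
      Integrable (fun θ : (Fin d → ZMod L) → ℝ => f x * f y * Real.cos (θ x - θ y)) μ := by
    intro x y
    have h1 : Integrable (fun θ : (Fin d → ZMod L) → ℝ => Real.cos (θ x - θ y)) μ :=
      Integrable.of_bound (by fun_prop : Continuous fun θ : (Fin d → ZMod L) → ℝ =>
        Real.cos (θ x - θ y)).aestronglyMeasurable 1
        (ae_of_all _ fun θ => by rw [Real.norm_eq_abs]; exact Real.abs_cos_le_one _)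
    exact h1.const_mul _
  have e : (fun θ : (Fin d → ZMod L) → ℝ => Nf f θ) =
      fun θ => ∑ x, ∑ y, f x * f y * Real.cos (θ x - θ y) := by
    funext θ
    unfold Nf Xf Yf
    rw [pow_two, pow_two, Finset.sum_mul_sum, Finset.sum_mul_sum, ← Finset.sum_add_distrib]
    refine Finset.sum_congr rfl fun x _ => ?_
    rw [← Finset.sum_add_distrib]
    refine Finset.sum_congr rfl fun y _ => ?_
    rw [Real.cos_sub]
    ring
  have e' : ∫ θ, Nf f θ ∂μ = ∫ θ, ∑ x, ∑ y, f x * f y * Real.cos (θ x - θ y) ∂μ := by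
    rw [← e]
  rw [e', integral_finsetSum _ fun x _ => integrable_finsetSum _ fun y _ => hi x y]
  unfold QR_FOU.BB KR
  refine Finset.sum_congr rfl fun x _ => ?_
  rw [integral_finsetSum _ fun y _ => hi x y]
  refine Finset.sum_congr rfl fun y _ => ?_
  rw [integral_const_mul, h]

/-- The number fluctuations of the mode `g` (times the norm of `g`). -/
noncomputable def Sg (Ψ : ((Fin d → ZMod L) → ℤ) → ℝ) (g : (Fin d → ZMod L) → ℝ) : ℝ :=
  ∑' n, (∑ x, g x * (n x : ℝ)) ^ 2 * Ψ n ^ 2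

open Finset Pool.Agent.N252.QLU in
/-- The uncertainty relation between phase and number of particles. -/
theorem unc2 {U : ℝ} (hU : 0 < U) {Ψ : ((Fin d → ZMod L) → ℤ) → ℝ}
    (hG : IsG (U • (1 : Matrix (Fin d → ZMod L) (Fin d → ZMod L) ℝ)) (nnw 1) 0 0 Ψ)
    (g : (Fin d → ZMod L) → ℝ) :
    (cf Ψ * (∑ x, g x ^ 2) -
      QR_FOU.BB (KR Ψ) g / (Fintype.card (Fin d → ZMod L) : ℝ)) ^ 2 ≤
      4 * Sg Ψ g * QR_FOU.BB (KR Ψ) g ∧ 0 ≤ QR_FOU.BB (KR Ψ) g := by
  have hFE : FE Ψ := hG.1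
  have hT : ∀ (a : Fin d → ZMod L) n n',
      Ψ (fun x => n (x + a)) * Ψ (fun x => n' (x + a)) = Ψ n * Ψ n' :=
    fun a n n' => symT hU (fun x y => le_rfl) (fun x y a => nnw_trans x y a) hG a n n'
  have hBB : QR_FOU.BB (KR Ψ) g = ∑ x, ∑ y, g x * g y * cr x y Ψ := rfl
  have hcf : cf Ψ = (∑ x, ∑ y, cr x y Ψ) / (Fintype.card (Fin d → ZMod L) : ℝ) ^ 2 := rfl
  rw [hBB, hcf]
  set V : ℝ := (Fintype.card (Fin d → ZMod L) : ℝ) with hV
  have hV0 : 0 < V := by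
    rw [hV]
    exact_mod_cast Fintype.card_pos
  set σ : ℝ := ∑ x, g x ^ 2 with hσ
  set Ng : ℝ := ∑ x, ∑ y, g x * g y * cr x y Ψ with hNg
  set S0 : ℝ := ∑ x, cr x 0 Ψ with hS0
  have hrow : ∀ y, ∑ x, cr x y Ψ = S0 := by
    intro y
    rw [hS0]
    have h1 : ∀ x, cr x y Ψ = cr (x - y) 0 Ψ := by
      intro x
      rw [cr_trans Ψ hT x y y, sub_self]
    rw [sum_congr rfl fun x _ => h1 x]
    exact Fintype.sum_equiv (Equiv.subRight y) _ _ (fun x => rfl)
  have htot : ∑ x, ∑ y, cr x y Ψ = V * S0 := by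
    rw [sum_comm, sum_congr rfl fun y _ => hrow y]
    simp [hV]
  have hcomm := comm g Ψ hFE
  have e1 : ∑ x, ∑ y, g y * (g y - g x) * cr x y Ψ = σ * S0 - Ng := by
    have h1 : ∑ x, ∑ y, g y * (g y - g x) * cr x y Ψ =
        (∑ x, ∑ y, g y ^ 2 * cr x y Ψ) - ∑ x, ∑ y, g x * g y * cr x y Ψ := by
      rw [← sum_sub_distrib]
      refine sum_congr rfl fun x _ => ?_
      rw [← sum_sub_distrib]
      refine sum_congr rfl fun y _ => ?_
      ring
    rw [h1, sum_comm]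
    congr 1
    rw [hσ, sum_mul]
    refine sum_congr rfl fun y _ => ?_
    rw [← mul_sum, hrow]
  rw [e1, ← hV] at hcomm
  obtain ⟨hB2, hBn⟩ := Bf_norm bas g Ψ hFE.1
  rw [← hNg] at hBn
  have hGL := GG_L2 g Ψ hFE
  have hcs := cs hGL hB2
  have hNg0 : 0 ≤ Ng := le_trans (tsum_nonneg fun n => sq_nonneg _) hBn
  have e2 : ∑' n, (GG g n * Ψ n) ^ 2 = Sg Ψ g := by
    unfold Sg
    refine tsum_congr fun n => ?_
    unfold GG
    ring
  have hS0' : 0 ≤ Sg Ψ g := by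
    unfold Sg
    exact tsum_nonneg fun n => by positivity
  have e3 : (∑' n, (GG g n * Ψ n) * Bf g Ψ n) ^ 2 ≤ Sg Ψ g * Ng := by
    refine le_trans hcs ?_
    rw [e2]
    exact mul_le_mul_of_nonneg_left hBn hS0'
  rw [hcomm] at e3
  refine ⟨?_, hNg0⟩
  rw [htot]
  have e5 : V * S0 / V ^ 2 * σ - Ng / V = 2 * (1 / (2 * V) * (σ * S0 - Ng)) := by
    field_simp
  rw [e5, mul_pow]
  nlinarith

theorem Sg_nonneg (Ψ : ((Fin d → ZMod L) → ℤ) → ℝ) (g : (Fin d → ZMod L) → ℝ) : 0 ≤ Sg Ψ g := by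
  unfold Sg
  exact tsum_nonneg fun n => by positivity

theorem Sg_up {U l : ℝ} (hU : 0 < U) (hl : 0 < l) {Ψ : ((Fin d → ZMod L) → ℤ) → ℝ}
    (hG : IsG (U • (1 : Matrix (Fin d → ZMod L) (Fin d → ZMod L) ℝ)) (nnw 1) 0 0 Ψ)
    (g : (Fin d → ZMod L) → ℝ) (hg : ∀ x, lap g x = l * g x) :
    Sg Ψ g ≤ (∑ x, g x ^ 2) * Real.sqrt (l / (8 * U)) := by
  refine numb hU hl (fun x y => le_rfl) hG g ?_
  have h := wz_sum (s := 0) (l := l) le_rfl 0 g hg
  have e : ∀ x y : Fin d → ZMod L, wz 0 0 x y = nnw 1 x y := by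
    intro x y
    unfold wz
    simp
  simp only [e, mul_zero, add_zero] at h
  exact h

end

/-- Real inequality: both quadratures. -/
theorem quad_ineq {ε c σ B S b s V : ℝ} (hε : 0 < ε) (hε1 : ε ≤ 1) (hc : 1 - ε / 16 ≤ c)
    (hσ : 0 ≤ σ) (hB0 : 0 ≤ B) (hS0 : 0 ≤ S) (hb : 0 < b) (hs : 0 < s) (hbs : 4 * b * s = 1) (hV : 0 < V)
    (hbV : 2 * b / V ≤ ε / 16)
    (hB : B ≤ (1 + ε / 4) * (σ * b)) (hS : S ≤ σ * s)
    (hu : (c * σ - B / V) ^ 2 ≤ 4 * S * B) :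
    |B - σ * b| ≤ ε * (σ * b) ∧ |S - σ * s| ≤ ε * (σ * s) := by
  rcases hσ.eq_or_lt with h0 | hσ0
  · subst h0
    have hB1 : B = 0 := le_antisymm (by simpa using hB) hB0
    have hS1 : S = 0 := le_antisymm (by simpa using hS) hS0
    subst hB1
    subst hS1
    simp
  have hBV : B / V ≤ ε / 16 * σ := by
    have h1 : B / V ≤ (1 + ε / 4) * (σ * b) / V := div_le_div_of_nonneg_right hB hV.le
    have h2 : (1 + ε / 4) * (σ * b) / V ≤ 2 * (σ * b) / V := by
      apply div_le_div_of_nonneg_right _ hV.le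
      have : 0 ≤ σ * b := by positivity
      nlinarith
    have h3 : 2 * (σ * b) / V = σ * (2 * b / V) := by ring
    have h4 : σ * (2 * b / V) ≤ σ * (ε / 16) := mul_le_mul_of_nonneg_left hbV hσ
    linarith
  have h1 : (1 - ε / 8) * σ ≤ c * σ - B / V := by nlinarith
  have h2 : 0 ≤ (1 - ε / 8) * σ := by
    apply mul_nonneg _ hσ
    linarith
  have h3 : ((1 - ε / 8) * σ) ^ 2 ≤ 4 * S * B := (pow_le_pow_left₀ h2 h1 2).trans hu
  have h4 : (1 - ε / 4) * σ ^ 2 ≤ 4 * S * B := by nlinarith [sq_nonneg σ, sq_nonneg (ε * σ)]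
  have hσb : 0 < σ * b := by positivity
  have hσs : 0 < σ * s := by positivity
  constructor
  · rw [abs_le]
    constructor
    · -- lower bound of `B`
      have h5 : 4 * S * B ≤ 4 * (σ * s) * B := by nlinarith
      have h6 : (1 - ε / 4) * σ ^ 2 ≤ 4 * (σ * s) * B := h4.trans h5
      have h7 : σ * ((1 - ε / 4) * (σ * b)) ≤ σ * B := by
        have h8 := mul_le_mul_of_nonneg_right h6 hb.le
        have h9 : 4 * (σ * s) * B * b = σ * B := by
          calc 4 * (σ * s) * B * b = σ * B * (4 * b * s) := by ring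
            _ = σ * B := by rw [hbs, mul_one]
        nlinarith
      have h10 := le_of_mul_le_mul_left h7 hσ0
      nlinarith
    · nlinarith
  · rw [abs_le]
    constructor
    · have h5 : 4 * S * B ≤ 4 * S * ((1 + ε / 4) * (σ * b)) :=
        mul_le_mul_of_nonneg_left hB (by positivity)
      have h6 := h4.trans h5
      have h7 : σ * ((1 - ε / 4) * (σ * s)) ≤ σ * (S * (1 + ε / 4)) := by
        have h8 := mul_le_mul_of_nonneg_right h6 hs.le
        have h9 : 4 * S * ((1 + ε / 4) * (σ * b)) * s = σ * (S * (1 + ε / 4)) := by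
          calc 4 * S * ((1 + ε / 4) * (σ * b)) * s = σ * (S * (1 + ε / 4)) * (4 * b * s) := by ring
            _ = _ := by rw [hbs, mul_one]
        nlinarith
      have h10 := le_of_mul_le_mul_left h7 hσ0
      have h11 : S * (1 + ε / 4) ≤ S + ε / 4 * (σ * s) := by nlinarith
      nlinarith
    · nlinarith

end Pool.Agent.H993.MD
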