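import Pool.Agent.H993.MD.B

/-!
# Project MD: the theorem for real ground states
-/

namespace Pool.Agent.H993.MD

open MeasureTheory
open Pool.Agent.N657.QR Pool.Agent.N657.QL Pool.Agent.H993.DM
open Pool.Agent.N157 (QR_FOU.cc QR_FOU.ss QR_FOU.BB)
open Pool.Agent.N498.QL_SYM (nnw_nonneg nnw_trans)

/-- The occupation numbers and the number fluctuations of all modes. -/
theorem real_mom (d : ℕ) (hd : 2 ≤ d) (ε : ℝ) (hε : 0 < ε) : ∃ U₀ : ℝ, 0 < U₀ ∧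
    ∀ U : ℝ, 0 < U → U ≤ U₀ → ∃ L₀ : ℕ, ∀ (L : ℕ) [NeZero L], L₀ ≤ L → Even L →
    ∀ (Ψ : ((Fin d → ZMod L) → ℤ) → ℝ),
      IsG (U • (1 : Matrix (Fin d → ZMod L) (Fin d → ZMod L) ℝ)) (nnw 1) 0 0 Ψ →
      ∀ k : Fin d → ZMod L, k ≠ 0 →
        |nk Ψ k / (Fintype.card (Fin d → ZMod L) : ℝ) - Real.sqrt (U / (2 * lam k))| ≤
          ε * Real.sqrt (U / (2 * lam k)) ∧
        |(Sg Ψ (QR_FOU.cc k) + Sg Ψ (QR_FOU.ss k)) / (Fintype.card (Fin d → ZMod L) : ℝ) -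
          Real.sqrt (lam k / (8 * U))| ≤ ε * Real.sqrt (lam k / (8 * U)) := by
  obtain ⟨e, he⟩ : ∃ e, e = min 1 ε := ⟨_, rfl⟩
  have he0 : 0 < e := by rw [he]; exact lt_min one_pos hε
  have he1 : e ≤ 1 := by rw [he]; exact min_le_left _ _
  have heε : e ≤ ε := by rw [he]; exact min_le_right _ _
  obtain ⟨U₁, hU₁, h1⟩ := up_mode d hd (e / 4) (by positivity)
  obtain ⟨C, hC, hNeu⟩ := neu d hd
  refine ⟨min (min U₁ 1) ((e / (16 * C)) ^ 2), lt_min (lt_min hU₁ one_pos) (by positivity), ?_⟩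
  intro U hU hUle
  obtain ⟨L₁, hL₁⟩ := h1 U hU (hUle.trans ((min_le_left _ _).trans (min_le_left _ _)))
  have hU1 : U ≤ 1 := hUle.trans ((min_le_left _ _).trans (min_le_right _ _))
  have hsU : 0 < Real.sqrt U := Real.sqrt_pos.2 hU
  have hsU1 : Real.sqrt U ≤ 1 := by rw [Real.sqrt_le_one]; exact hU1
  have hsC : Real.sqrt U ≤ e / (16 * C) := by
    rw [← Real.sqrt_sq (by positivity : 0 ≤ e / (16 * C))]
    exact Real.sqrt_le_sqrt (hUle.trans (min_le_right _ _))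
  refine ⟨max L₁ (⌈16 / e⌉₊ + 1), ?_⟩
  intro L _ hLL hev Ψ hΨ k hk
  have hLe : 16 / e ≤ L := by
    refine (Nat.le_ceil _).trans ?_
    exact_mod_cast (Nat.le_succ _).trans ((le_max_right _ _).trans hLL)
  have hL0 : 0 < (L : ℝ) := by exact_mod_cast Nat.pos_of_ne_zero (NeZero.ne L)
  have hcf0 := cf_low (C := C) (fun Ψ hΨ => by
    have := hNeu L U 1 Ψ hev hU one_pos hΨ
    rwa [div_one] at this) hU (fun x y => le_rfl) hΨ
  have hcf : 1 - e / 16 ≤ cf Ψ := by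
    refine le_trans ?_ hcf0
    rw [le_div_iff₀ (by positivity)] at hsC
    linarith
  obtain ⟨μ, hμ, hcr⟩ := env d L U Ψ hev hU hΨ
  have hprob := hμ.prob
  have hlow := pla.low d L k hk
  have hl : 0 < lam k := lam_pos' hk
  have hVL : (L : ℝ) ^ 2 ≤ (Fintype.card (Fin d → ZMod L) : ℝ) := Pool.Agent.N987.QLLOWG.card_ge hd
  obtain ⟨V, hV⟩ : ∃ V : ℝ, V = (Fintype.card (Fin d → ZMod L) : ℝ) := ⟨_, rfl⟩
  have hV0 : 0 < V := by rw [hV]; exact card_pos'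
  have hb0 : 0 < Real.sqrt (U / (2 * lam k)) := Real.sqrt_pos.2 (by positivity)
  have hs0 : 0 < Real.sqrt (lam k / (8 * U)) := Real.sqrt_pos.2 (by positivity)
  have hbs : 4 * Real.sqrt (U / (2 * lam k)) * Real.sqrt (lam k / (8 * U)) = 1 := by
    rw [mul_assoc, ← Real.sqrt_mul (by positivity)]
    have : U / (2 * lam k) * (lam k / (8 * U)) = (1 / 4) ^ 2 := by
      field_simp
      norm_num
    rw [this, Real.sqrt_sq (by norm_num)]
    norm_num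
  have hbL : Real.sqrt (U / (2 * lam k)) ≤ L / 4 := by
    apply Real.sqrt_le_iff.2
    refine ⟨by positivity, ?_⟩
    rw [div_le_iff₀ (by positivity)]
    have h2 : (16 : ℝ) ≤ lam k * (L : ℝ) ^ 2 := by
      rwa [div_le_iff₀ (by positivity)] at hlow
    have h3 : ((L : ℝ) / 4) ^ 2 * (2 * lam k) = lam k * (L : ℝ) ^ 2 / 8 := by ring
    rw [h3]
    linarith
  have hbV : 2 * Real.sqrt (U / (2 * lam k)) / V ≤ e / 16 := by
    rw [div_le_iff₀ hV0]
    have h2 : e / 16 * (L : ℝ) ^ 2 ≤ e / 16 * V := by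
      rw [hV]
      exact mul_le_mul_of_nonneg_left hVL (by positivity)
    rw [div_le_iff₀ he0] at hLe
    nlinarith
  have hone : ∀ g : (Fin d → ZMod L) → ℝ, (∀ x, lap g x = lam k * g x) →
      |QR_FOU.BB (KR Ψ) g - (∑ x, g x ^ 2) * Real.sqrt (U / (2 * lam k))| ≤
        e * ((∑ x, g x ^ 2) * Real.sqrt (U / (2 * lam k))) ∧
      |Sg Ψ g - (∑ x, g x ^ 2) * Real.sqrt (lam k / (8 * U))| ≤
        e * ((∑ x, g x ^ 2) * Real.sqrt (lam k / (8 * U))) := by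
    intro g hg
    have hup := hL₁ L ((le_max_left _ _).trans hLL) μ hμ (lam k) g hlow hg
    rw [← BB_int hcr g] at hup
    obtain ⟨hu, hB0⟩ := unc2 hU hΨ g
    exact quad_ineq he0 he1 hcf (Finset.sum_nonneg fun x _ => sq_nonneg _) hB0 (Sg_nonneg Ψ g)
      hb0 hs0 hbs hV0 hbV hup (Sg_up hU hl hΨ g hg) (by rw [hV]; exact hu)
  obtain ⟨c1, c2⟩ := hone (QR_FOU.cc k) (fun x => Pool.Agent.N157.QR_FOU.lap_cc k x)
  obtain ⟨s1, s2⟩ := hone (QR_FOU.ss k) (fun x => Pool.Agent.N157.QR_FOU.lap_ss k x)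
  have hnorm : (∑ x, QR_FOU.cc k x ^ 2) + ∑ x, QR_FOU.ss k x ^ 2 = V := by
    rw [← Finset.sum_add_distrib]
    simp only [fun x => Pool.Agent.N157.QR_FOU.cs_sq k x]
    rw [Finset.sum_const, Finset.card_univ, nsmul_eq_mul, mul_one, hV]
  rw [← hV]
  have key : ∀ {X Y a b p : ℝ}, 0 ≤ p → a + b = V → |X - a * p| ≤ e * (a * p) →
      |Y - b * p| ≤ e * (b * p) → |(X + Y) / V - p| ≤ ε * p := by
    intro X Y a b p hp hab hX hY
    have h2 : (X + Y) / V - p = ((X - a * p) + (Y - b * p)) / V := by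
      field_simp
      rw [← hab]
      ring
    rw [h2, abs_div, abs_of_pos hV0, div_le_iff₀ hV0]
    calc |(X - a * p) + (Y - b * p)| ≤ |X - a * p| + |Y - b * p| := abs_add_le _ _
      _ ≤ e * (a * p) + e * (b * p) := add_le_add hX hY
      _ = e * p * V := by rw [← hab]; ring
      _ ≤ ε * p * V := by gcongr
  exact ⟨key hb0.le hnorm c1 s1, key hs0.le hnorm c2 s2⟩

end Pool.Agent.H993.MD
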