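import Pool.Agent.H993.MD.C

/-!
# Project MD: the energy of the ground states
-/

namespace Pool.Agent.H993.MD

open MeasureTheory
open Pool.Agent.N657.QR Pool.Agent.N657.QL Pool.Agent.H993.DM
open Pool.Agent.H993.TR (oc oc_nonneg oc_le oc_zero)
open Pool.Agent.N157 (QR_FOU.cc QR_FOU.ss QR_FOU.BB)
open Pool.Agent.N498.QL_SYM (nnw_nonneg nnw_trans)

section

variable {d L : ℕ} [NeZero L]

theorem oc_ee (k : Fin d → ZMod L) : ∑ i, oc k (ee i) = lam k / 2 := by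
  have h : ∀ i, oc k (ee i) =
      (2 - 2 * Real.cos (2 * Real.pi * ((k i).val : ℝ) / (L : ℝ))) / 2 := by
    intro i
    unfold oc
    rw [Pool.Agent.N157.QR_FOU.dot_ee, Pool.Agent.N157.QR_FOU.ps_re]
    ring
  simp only [h]
  rw [← Finset.sum_div]
  rfl

/-- Plancherel for the numbers of particles. -/
theorem planch_n (n : (Fin d → ZMod L) → ℤ) :
    ∑ k, ((∑ x, QR_FOU.cc k x * (n x : ℝ)) ^ 2 + (∑ x, QR_FOU.ss k x * (n x : ℝ)) ^ 2) =
      (Fintype.card (Fin d → ZMod L) : ℝ) * Pool.Agent.N657.QR.sq n := by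
  have h := Pool.Agent.N157.QR_FOU.planch (fun x y : Fin d → ZMod L => (n x : ℝ) * (n y : ℝ))
  have e1 : ∀ f : (Fin d → ZMod L) → ℝ,
      QR_FOU.BB (fun x y => (n x : ℝ) * (n y : ℝ)) f = (∑ x, f x * (n x : ℝ)) ^ 2 := by
    intro f
    unfold QR_FOU.BB
    rw [pow_two, Finset.sum_mul_sum]
    refine Finset.sum_congr rfl fun x _ => Finset.sum_congr rfl fun y _ => ?_
    ring
  simp only [e1] at h
  rw [h]
  unfold Pool.Agent.N657.QR.sq
  congr 1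
  exact Finset.sum_congr rfl fun x _ => by ring

theorem Sg_summable {Ψ : ((Fin d → ZMod L) → ℤ) → ℝ} (hFE : FE Ψ)
    (g : (Fin d → ZMod L) → ℝ) :
    Summable (fun n : (Fin d → ZMod L) → ℤ => (∑ x, g x * (n x : ℝ)) ^ 2 * Ψ n ^ 2) := by
  have h : Summable fun n => (Pool.Agent.N252.QLU.GG g n * Ψ n) ^ 2 :=
    Pool.Agent.N252.QLU.GG_L2 g Ψ hFE
  refine h.congr fun n => ?_
  unfold Pool.Agent.N252.QLU.GG
  ring

theorem Sg_sum {Ψ : ((Fin d → ZMod L) → ℤ) → ℝ} (hFE : FE Ψ) (hs : Sec 0 Ψ) :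
    (Fintype.card (Fin d → ZMod L) : ℝ) * ∑' n, Pool.Agent.N657.QR.sq n * Ψ n ^ 2 =
      ∑ k ∈ (Finset.univ : Finset (Fin d → ZMod L)).erase 0,
        (Sg Ψ (QR_FOU.cc k) + Sg Ψ (QR_FOU.ss k)) := by
  have hz : Sg Ψ (QR_FOU.cc (0 : Fin d → ZMod L)) + Sg Ψ (QR_FOU.ss (0 : Fin d → ZMod L)) = 0 := by
    have h0 : ∀ x : Fin d → ZMod L, QR_FOU.cc 0 x = 1 ∧ QR_FOU.ss 0 x = 0 := by
      intro x
      have : Pool.Agent.N157.QR_FOU.dot (0 : Fin d → ZMod L) x = 0 := by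
        simp [Pool.Agent.N157.QR_FOU.dot]
      unfold QR_FOU.cc QR_FOU.ss
      rw [this, Pool.Agent.N157.QR_FOU.ps_zero]
      simp
    have h1 : Sg Ψ (QR_FOU.cc (0 : Fin d → ZMod L)) = 0 := by
      unfold Sg
      have : ∀ n : (Fin d → ZMod L) → ℤ,
          (∑ x, QR_FOU.cc 0 x * (n x : ℝ)) ^ 2 * Ψ n ^ 2 = 0 := by
        intro n
        by_cases hn : Ψ n = 0
        · rw [hn]; ring
        · have h2 := hs n hn
          have h3 : ∑ x, QR_FOU.cc 0 x * (n x : ℝ) = ((tot n : ℤ) : ℝ) := by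
            unfold tot
            push_cast
            exact Finset.sum_congr rfl fun x _ => by rw [(h0 x).1, one_mul]
          rw [h3, h2]
          simp
      simp only [this, tsum_zero]
    have h2 : Sg Ψ (QR_FOU.ss (0 : Fin d → ZMod L)) = 0 := by
      unfold Sg
      have : ∀ n : (Fin d → ZMod L) → ℤ,
          (∑ x, QR_FOU.ss 0 x * (n x : ℝ)) ^ 2 * Ψ n ^ 2 = 0 := by
        intro n
        have h3 : ∑ x, QR_FOU.ss 0 x * (n x : ℝ) = 0 :=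
          Finset.sum_eq_zero fun x _ => by rw [(h0 x).2, zero_mul]
        rw [h3]
        ring
      simp only [this, tsum_zero]
    rw [h1, h2, add_zero]
  have h1 : (Fintype.card (Fin d → ZMod L) : ℝ) * ∑' n, Pool.Agent.N657.QR.sq n * Ψ n ^ 2 =
      ∑ k, (Sg Ψ (QR_FOU.cc k) + Sg Ψ (QR_FOU.ss k)) := by
    calc (Fintype.card (Fin d → ZMod L) : ℝ) * ∑' n, Pool.Agent.N657.QR.sq n * Ψ n ^ 2 =
        ∑' n, (Fintype.card (Fin d → ZMod L) : ℝ) * (Pool.Agent.N657.QR.sq n * Ψ n ^ 2) := by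
          rw [tsum_mul_left]
      _ = ∑' n : (Fin d → ZMod L) → ℤ, ∑ k, ((∑ x, QR_FOU.cc k x * (n x : ℝ)) ^ 2 * Ψ n ^ 2 +
            (∑ x, QR_FOU.ss k x * (n x : ℝ)) ^ 2 * Ψ n ^ 2) := by
          refine tsum_congr fun n => ?_
          rw [← mul_assoc, ← planch_n, Finset.sum_mul]
          exact Finset.sum_congr rfl fun k _ => by ring
      _ = ∑ k, ∑' n : (Fin d → ZMod L) → ℤ, ((∑ x, QR_FOU.cc k x * (n x : ℝ)) ^ 2 * Ψ n ^ 2 +
            (∑ x, QR_FOU.ss k x * (n x : ℝ)) ^ 2 * Ψ n ^ 2) :=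
          Summable.tsum_finsetSum fun k _ => (Sg_summable hFE _).add (Sg_summable hFE _)
      _ = ∑ k, (Sg Ψ (QR_FOU.cc k) + Sg Ψ (QR_FOU.ss k)) :=
          Finset.sum_congr rfl fun k _ => (Sg_summable hFE _).tsum_add (Sg_summable hFE _)
  rw [h1, ← Finset.add_sum_erase _ _ (Finset.mem_univ (0 : Fin d → ZMod L)), hz, zero_add]

theorem hop_sum {Ψ : ((Fin d → ZMod L) → ℤ) → ℝ} (hn : nr Ψ = 1) :
    (Fintype.card (Fin d → ZMod L) : ℝ) * (d * (Fintype.card (Fin d → ZMod L) : ℝ) -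
      ∑ x, ∑ y, nnw 1 x y * cr x y Ψ) =
      ∑ k ∈ (Finset.univ : Finset (Fin d → ZMod L)).erase 0, lam k / 2 * nk Ψ k := by
  have h1 : ∀ x : Fin d → ZMod L, ∑ y, nnw 1 x y * cr x y Ψ = ∑ i : Fin d, cr x (x + ee i) Ψ :=
    fun x => Pool.Agent.N690.QLM.nnw_sum x fun y => cr x y Ψ
  have h2 : ∀ i : Fin d, ∑ k ∈ (Finset.univ : Finset (Fin d → ZMod L)).erase 0,
      nk Ψ k * oc k (ee i) =
      (Fintype.card (Fin d → ZMod L) : ℝ) * ∑ x, (1 - cr x (x + ee i) Ψ) := fun i => cosum hn (ee i)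
  have h3 : ∑ k ∈ (Finset.univ : Finset (Fin d → ZMod L)).erase 0, lam k / 2 * nk Ψ k =
      ∑ i : Fin d, ∑ k ∈ (Finset.univ : Finset (Fin d → ZMod L)).erase 0, nk Ψ k * oc k (ee i) := by
    rw [Finset.sum_comm]
    refine Finset.sum_congr rfl fun k _ => ?_
    rw [← Finset.mul_sum, oc_ee]
    ring
  rw [h3, Finset.sum_congr rfl fun i _ => h2 i, ← Finset.mul_sum]
  congr 1
  rw [Finset.sum_congr rfl fun x _ => h1 x, Finset.sum_comm]
  simp only [Finset.sum_sub_distrib, Finset.sum_const, Finset.card_univ, nsmul_eq_mul, mul_one,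
    Fintype.card_fin]

/-- The energy in terms of the modes. -/
theorem en_modes {U : ℝ} {Ψ : ((Fin d → ZMod L) → ℤ) → ℝ}
    (hG : IsG (U • (1 : Matrix (Fin d → ZMod L) (Fin d → ZMod L) ℝ)) (nnw 1) 0 0 Ψ) :
    en (U • (1 : Matrix (Fin d → ZMod L) (Fin d → ZMod L) ℝ)) (nnw 1) 0 0 +
      d * (Fintype.card (Fin d → ZMod L) : ℝ) =
      ∑ k ∈ (Finset.univ : Finset (Fin d → ZMod L)).erase 0,
        (U * ((Sg Ψ (QR_FOU.cc k) + Sg Ψ (QR_FOU.ss k)) /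
          (Fintype.card (Fin d → ZMod L) : ℝ)) +
          lam k / 2 * (nk Ψ k / (Fintype.card (Fin d → ZMod L) : ℝ))) := by
  obtain ⟨hFE, hs, hn, hen⟩ := hG
  obtain ⟨V, hV⟩ : ∃ V : ℝ, V = (Fintype.card (Fin d → ZMod L) : ℝ) := ⟨_, rfl⟩
  have hV0 : 0 < V := by rw [hV]; exact card_pos'
  have h1 := Sg_sum hFE hs
  have h2 := hop_sum hn
  rw [← hV] at h1 h2 ⊢
  have hpo : po (U • (1 : Matrix (Fin d → ZMod L) (Fin d → ZMod L) ℝ)) 0 Ψ =
      U * ∑' n, Pool.Agent.N657.QR.sq n * Ψ n ^ 2 := by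
    unfold po
    rw [← tsum_mul_left]
    refine tsum_congr fun n => ?_
    rw [Pool.Agent.N839.QLD.pot_eq]
    unfold Pool.Agent.N657.QR.sq
    simp only [Pi.zero_apply, sub_zero]
    ring
  rw [← hen]
  unfold FF
  rw [hpo, Finset.sum_add_distrib]
  have e1 : ∑ k ∈ (Finset.univ : Finset (Fin d → ZMod L)).erase 0,
      U * ((Sg Ψ (QR_FOU.cc k) + Sg Ψ (QR_FOU.ss k)) / V) =
      U * ∑' n, Pool.Agent.N657.QR.sq n * Ψ n ^ 2 := by
    rw [← Finset.mul_sum, ← Finset.sum_div, ← h1]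
    field_simp
  have e2 : ∑ k ∈ (Finset.univ : Finset (Fin d → ZMod L)).erase 0, lam k / 2 * (nk Ψ k / V) =
      d * V - ∑ x, ∑ y, nnw 1 x y * cr x y Ψ := by
    have : ∑ k ∈ (Finset.univ : Finset (Fin d → ZMod L)).erase 0, lam k / 2 * (nk Ψ k / V) =
        (∑ k ∈ (Finset.univ : Finset (Fin d → ZMod L)).erase 0, lam k / 2 * nk Ψ k) / V := by
      rw [Finset.sum_div]
      exact Finset.sum_congr rfl fun k _ => by ring
    rw [this, ← h2]
    field_simp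
  rw [e1, e2]
  ring

end

end Pool.Agent.H993.MD
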